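import Pool.Agent.H43.G.R_seed8.H300R2.BH.Defs
import Pool.Agent.H43.G.R_seed8.H442R2.EHI.Dft
import Pool.Agent.H43.G.R_seed8.H442R2.EHI.Arcs

/-!
Discrete Fourier expansion and decomposition of the major arcs for a general function.
-/

namespace Pool.Agent.H300R2.BH

open Finset Polynomial
open Pool.Agent.H469R2.NK (e norm_e e_add conj_e e_zero)
open Pool.Agent.H442R2.EHI (sum_e_range e_add_int Maj maj_rep Pairs card_pairs)

lemma ch_inv (f : ℕ → ℂ) (x N : ℕ) (hf : ∀ n, x < n → f n = 0) (hN : 1 ≤ N) (m : ℤ)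
    (h1 : (x : ℤ) - N < m) (h2 : m ≤ N) :
    ∑ h ∈ range N, chf f x N h * e (-((m : ℝ) * h / N)) = fz f m := by
  have hN0 : (N : ℂ) ≠ 0 := by
    exact_mod_cast (by omega : N ≠ 0)
  have e1 : ∀ h ∈ range N, chf f x N h * e (-((m : ℝ) * h / N)) =
      ∑ n ∈ Icc 1 x, (1 / (N : ℂ)) * (f n * e ((((n : ℤ) - m : ℤ) : ℝ) * h / N)) := by
    intro h _
    unfold chf
    rw [mul_sum, sum_mul]
    refine sum_congr rfl fun n _ => ?_
    have : e ((((n : ℤ) - m : ℤ) : ℝ) * h / N) =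
        e ((n : ℝ) * (((h : ℤ) : ℝ) / N)) * e (-((m : ℝ) * h / N)) := by
      rw [← e_add]; congr 1; push_cast; ring
    rw [this]; ring
  rw [sum_congr rfl e1, sum_comm]
  have e2 : ∀ n ∈ Icc 1 x, ∑ h ∈ range N,
      (1 / (N : ℂ)) * (f n * e ((((n : ℤ) - m : ℤ) : ℝ) * h / N)) =
      if (n : ℤ) = m then f n else 0 := by
    intro n hn
    rw [mem_Icc] at hn
    rw [← mul_sum, ← mul_sum, sum_e_range N hN]
    by_cases hnm : (n : ℤ) = m
    · rw [if_pos hnm, if_pos (by rw [hnm, sub_self]; exact dvd_zero _)]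
      field_simp
    · rw [if_neg hnm, if_neg]
      · simp
      · intro hd
        obtain ⟨t, ht⟩ := hd
        have hNz : (0:ℤ) < N := by exact_mod_cast hN
        have hn1 : (1:ℤ) ≤ n := by exact_mod_cast hn.1
        have hn2 : (n:ℤ) ≤ x := by exact_mod_cast hn.2
        rcases lt_trichotomy t 0 with h | h | h
        · have : (N:ℤ) * t ≤ -N := by nlinarith
          omega
        · rw [h, mul_zero] at ht
          omega
        · have : (N:ℤ) ≤ N * t := by nlinarith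
          omega
  rw [sum_congr rfl e2]
  unfold fz
  by_cases hm : 1 ≤ m
  · rw [if_pos hm]
    by_cases hmx : m ≤ x
    · rw [sum_eq_single m.toNat]
      · rw [if_pos (by omega)]
      · intro b _ hb
        rw [if_neg (by omega)]
      · intro hb
        exfalso; apply hb; rw [mem_Icc]; omega
    · rw [hf _ (by omega)]
      apply sum_eq_zero
      intro n hn
      rw [mem_Icc] at hn
      rw [if_neg (by omega)]
  · rw [if_neg hm]
    apply sum_eq_zero
    intro n hn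
    rw [mem_Icc] at hn
    rw [if_neg (by omega)]

/-- Parseval -/
lemma ch_parseval (f : ℕ → ℂ) (x N : ℕ) (hN : x + 1 ≤ N) :
    (N : ℝ) * ∑ h ∈ range N, ‖chf f x N h‖ ^ 2 = ∑ n ∈ Icc 1 x, ‖f n‖ ^ 2 := by
  have hN1 : 1 ≤ N := by omega
  have hN0 : (N : ℂ) ≠ 0 := by exact_mod_cast (by omega : N ≠ 0)
  have key : ((N : ℝ) * ∑ h ∈ range N, ‖chf f x N h‖ ^ 2 : ℂ) =
      ∑ n ∈ Icc 1 x, (‖f n‖ ^ 2 : ℂ) := by
    have e0 : ∀ h ∈ range N, ((‖chf f x N h‖ : ℂ) ^ 2) =
        ∑ n ∈ Icc 1 x, ∑ n' ∈ Icc 1 x, (1 / (N : ℂ)) ^ 2 * (f n * (starRingEnd ℂ) (f n')) *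
          e ((((n : ℤ) - n' : ℤ) : ℝ) * h / N) := by
      intro h _
      have : ((‖chf f x N h‖ : ℂ) ^ 2) = chf f x N h * (starRingEnd ℂ) (chf f x N h) := by
        rw [Complex.mul_conj, Complex.normSq_eq_norm_sq]; push_cast; rfl
      rw [this]
      unfold chf
      rw [map_mul, map_sum, map_div₀, map_one, map_natCast]
      rw [show ∀ a b c d : ℂ, a * b * (c * d) = (a * c) * (b * d) from fun a b c d => by ring]
      rw [sum_mul_sum, mul_sum]
      refine sum_congr rfl fun n _ => ?_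
      rw [mul_sum]
      refine sum_congr rfl fun n' _ => ?_
      rw [map_mul, conj_e]
      have : e ((((n : ℤ) - n' : ℤ) : ℝ) * h / N) =
          e ((n : ℝ) * (((h : ℤ) : ℝ) / N)) * e (-((n' : ℝ) * (((h : ℤ) : ℝ) / N))) := by
        rw [← e_add]; congr 1; push_cast; ring
      rw [this]; ring
    push_cast
    rw [sum_congr rfl e0, sum_comm, mul_sum]
    refine sum_congr rfl fun n hn => ?_
    rw [sum_comm, mul_sum]
    rw [sum_eq_single n]
    · rw [← mul_sum, sum_e_range N hN1, if_pos (by simp)]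
      have : (starRingEnd ℂ) (f n) * f n = (‖f n‖ : ℂ) ^ 2 := by
        rw [mul_comm, Complex.mul_conj, Complex.normSq_eq_norm_sq]; push_cast; rfl
      rw [← this]
      field_simp
    · intro n' hn' hne
      rw [← mul_sum, sum_e_range N hN1, if_neg, mul_zero, mul_zero]
      rw [mem_Icc] at hn hn'
      rintro ⟨t, ht⟩
      have hNz : (x:ℤ) < N := by exact_mod_cast hN
      rcases lt_trichotomy t 0 with h | h | h
      · have : (N:ℤ) * t ≤ -N := by nlinarith
        omega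
      · rw [h, mul_zero] at ht
        apply hne; omega
      · have : (N:ℤ) ≤ N * t := by nlinarith
        omega
    · intro h; exact absurd hn h
  exact_mod_cast key

lemma ch_periodic (f : ℕ → ℂ) (x N : ℕ) (hN : 1 ≤ N) (h t : ℤ) : chf f x N (h - t * N) = chf f x N h := by
  unfold chf
  congr 1
  refine sum_congr rfl fun n _ => ?_
  congr 1
  have hN0 : (N : ℝ) ≠ 0 := by positivity
  have : (n : ℝ) * ((h - t * N : ℤ) / N) = (n : ℝ) * ((h : ℝ) / N) + ((-(n * t) : ℤ) : ℝ) := by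
    push_cast; field_simp; ring
  rw [this, e_add_int]


open Classical in
lemma major_decomp (f : ℕ → ℂ) (x Q N : ℕ) (hN : 1 ≤ N) (δ : ℝ) : ∃ S : ℕ × ℕ → Finset ℤ,
    (∀ m : ℤ, ∑ h ∈ (range N).filter (fun h : ℕ => Maj Q δ ((h : ℝ) / N)),
      chf f x N h * e (-((m : ℝ) * h / N)) =
      ∑ p ∈ Pairs Q, ∑ h ∈ S p, chf f x N h * e (-((m : ℝ) * h / N))) ∧
    (∀ p ∈ Pairs Q, ∀ h ∈ S p, p.2.Coprime p.1 ∧ |(h : ℝ) / N - (p.2 : ℝ) / (p.1 : ℝ)| ≤ δ) ∧
    (∀ p ∈ Pairs Q, ∑ h ∈ S p, ‖chf f x N h‖ ^ 2 ≤ ∑ h ∈ range N, ‖chf f x N h‖ ^ 2) := by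
  set M := (range N).filter (fun h : ℕ => Maj Q δ ((h : ℝ) / N)) with hM
  have hex : ∀ h : ℕ, ∃ (q b : ℕ) (h' : ℤ), h ∈ M → (q ∈ Icc 1 Q ∧ b < q ∧ b.Coprime q ∧
      (∃ t : ℤ, h' = h - t * N) ∧ |(h' : ℝ) / N - (b : ℝ) / (q : ℝ)| ≤ δ) := by
    intro h
    by_cases hm : h ∈ M
    · obtain ⟨q, b, h', hh⟩ := maj_rep (Q := Q) hN (mem_filter.mp hm).2
      exact ⟨q, b, h', fun _ => hh⟩
    · exact ⟨0, 0, 0, fun h0 => absurd h0 hm⟩
  choose qf bf hf hspec using hex
  have hinj : Set.InjOn hf (M : Set ℕ) := by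
    intro h hh h2 hh2 heq
    obtain ⟨_, _, _, ⟨t, ht⟩, _⟩ := hspec h hh
    obtain ⟨_, _, _, ⟨t2, ht2⟩, _⟩ := hspec h2 hh2
    have h3 : (h : ℤ) < N := by
      have := mem_range.mp (mem_filter.mp hh).1
      exact_mod_cast this
    have h4 : (h2 : ℤ) < N := by
      have := mem_range.mp (mem_filter.mp hh2).1
      exact_mod_cast this
    rw [ht, ht2] at heq
    have h5 : (h : ℤ) - h2 = (t - t2) * N := by linarith
    have hNz : (0:ℤ) < N := by exact_mod_cast hN
    rcases lt_trichotomy (t - t2) 0 with h6 | h6 | h6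
    · have : (t - t2) * N ≤ -N := by nlinarith
      omega
    · rw [h6, zero_mul] at h5
      omega
    · have : (N:ℤ) ≤ (t - t2) * N := by nlinarith
      omega
  set S : ℕ × ℕ → Finset ℤ := fun p => (M.filter (fun h => (qf h, bf h) = p)).image hf with hS
  have hsum : ∀ (p : ℕ × ℕ) (F : ℤ → ℂ),
      ∑ h ∈ S p, F h = ∑ h ∈ M.filter (fun h => (qf h, bf h) = p), F (hf h) := by
    intro p F
    rw [hS]
    refine sum_image ?_
    intro a ha b hb
    exact hinj (mem_filter.mp ha).1 (mem_filter.mp hb).1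
  have hsumR : ∀ (p : ℕ × ℕ) (F : ℤ → ℝ),
      ∑ h ∈ S p, F h = ∑ h ∈ M.filter (fun h => (qf h, bf h) = p), F (hf h) := by
    intro p F
    rw [hS]
    refine sum_image ?_
    intro a ha b hb
    exact hinj (mem_filter.mp ha).1 (mem_filter.mp hb).1
  have hmaps : ∀ h ∈ M, (qf h, bf h) ∈ Pairs Q := by
    intro h hh
    obtain ⟨h1, h2, _⟩ := hspec h hh
    rw [mem_Icc] at h1
    simp only [Pairs, mem_product, mem_Icc, mem_range]
    omega
  have hch : ∀ h ∈ M, chf f x N (hf h) = chf f x N h := by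
    intro h hh
    obtain ⟨_, _, _, ⟨t, ht⟩, _⟩ := hspec h hh
    rw [ht, ch_periodic f x N hN]
  refine ⟨S, ?_, ?_, ?_⟩
  · intro m
    rw [← sum_fiberwise_of_maps_to hmaps]
    refine sum_congr rfl fun p _ => ?_
    rw [hsum]
    refine sum_congr rfl fun h hh => ?_
    have hhM := (mem_filter.mp hh).1
    rw [hch h hhM]
    obtain ⟨_, _, _, ⟨t, ht⟩, _⟩ := hspec h hhM
    congr 1
    have hN0 : (N : ℝ) ≠ 0 := by positivity
    have : -((m : ℝ) * (hf h : ℝ) / N) = -((m : ℝ) * h / N) + ((m * t : ℤ) : ℝ) := by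
      rw [ht]; push_cast; field_simp; ring
    rw [this, e_add_int]
  · intro p _ h hh
    rw [hS, mem_image] at hh
    obtain ⟨h0, hh0, rfl⟩ := hh
    rw [mem_filter] at hh0
    obtain ⟨_, _, h3, _, h5⟩ := hspec h0 hh0.1
    rw [← hh0.2]
    exact ⟨h3, h5⟩
  · intro p _
    rw [hsumR]
    calc ∑ h ∈ M.filter (fun h => (qf h, bf h) = p), ‖chf f x N (hf h)‖ ^ 2
        = ∑ h ∈ M.filter (fun h => (qf h, bf h) = p), ‖chf f x N h‖ ^ 2 := by
          refine sum_congr rfl fun h hh => ?_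
          rw [hch h (mem_filter.mp hh).1]
      _ ≤ ∑ h ∈ range N, ‖chf f x N h‖ ^ 2 := by
          apply sum_le_sum_of_subset_of_nonneg
          · intro h hh
            exact (mem_filter.mp (mem_filter.mp hh).1).1
          · intros; positivity

end Pool.Agent.H300R2.BH
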