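import Mathlib
import Pool.Agent.H43.G.R_seed8.H442R2.EHI.Defs

/-!
Bateman-Horn and Chowla for almost all polynomials `a + R(k) + σ d k^j` in short boxes:
definitions.
-/

namespace Pool.Agent.H300R2.BH

open Finset Polynomial
open Pool.Agent.H469R2.NK (e)
open Pool.Agent.H442R2.EHI

/-- extension of `f` by zero to the integers -/
noncomputable def fz (f : ℕ → ℂ) (m : ℤ) : ℂ := if 1 ≤ m then f m.toNat else 0

/-- discrete Fourier coefficients of `f` restricted to `[1, x]` -/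
noncomputable def chf (f : ℕ → ℂ) (x N : ℕ) (h : ℤ) : ℂ :=
  (1 / (N : ℂ)) * ∑ n ∈ Icc 1 x, f n * e ((n : ℝ) * ((h : ℝ) / N))

/-- the polynomial `a + R + σ d X^j` -/
noncomputable def FF (R : ℤ[X]) (j : ℕ) (σ : ℤ) (a d : ℕ) : ℤ[X] :=
  C (a : ℤ) + R + C (σ * (d : ℤ)) * X ^ j

/-- number of roots of `F` modulo `p` -/
noncomputable def rho (F : ℤ[X]) (p : ℕ) : ℕ :=
  ((range p).filter (fun k : ℕ => (p : ℤ) ∣ F.eval (k : ℤ))).card

/-- local factor minus one of the singular series -/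
noncomputable def tt (F : ℤ[X]) (p : ℕ) : ℝ := (1 - (rho F p : ℝ)) / ((p : ℝ) - 1)

/-- term of the singular series -/
noncomputable def TT (F : ℤ[X]) (q : ℕ) : ℝ := ∏ p ∈ q.primeFactors, tt F p

/-- truncated singular series -/
noncomputable def GG (Q : ℕ) (F : ℤ[X]) : ℝ := ∑ q ∈ (Icc 1 Q).filter Squarefree, TT F q

/-- truncated Euler product `∏_{p ≤ z} (1 - ρ(p)/p)/(1 - 1/p)` -/
noncomputable def SS (z : ℕ) (F : ℤ[X]) : ℝ :=
  ∏ p ∈ (Icc 1 z).filter Nat.Prime, (1 - (rho F p : ℝ) / p) / (1 - 1 / (p : ℝ))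

/-- mean value of `c_q` along the values of `F` -/
noncomputable def mq (F : ℤ[X]) (q : ℕ) : ℂ :=
  (1 / (q : ℂ)) * ∑ k ∈ range q, cq q ((F.eval (k : ℤ)) % (q : ℤ)).toNat

/-- product of the primes `p ≤ z` dividing all values of `F` -/
noncomputable def bad (z : ℕ) (F : ℤ[X]) : ℕ :=
  ∏ p ∈ (Icc 1 z).filter (fun p => p.Prime ∧ rho F p = p), p

end Pool.Agent.H300R2.BH
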