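import Pool.Agent.H43.G.R_seed8.H300R2.BH.Defs
import Pool.Agent.H43.G.R_seed8.H394R2.BH_SingExc
import Pool.Agent.H43.G.R_seed8.H415R2.BH_SingL2
import Pool.Agent.H43.G.R_seed8.H338R2.BH_SingTail
import Pool.Agent.H43.G.R_seed8.H442R2.EHI.Core2

/-!
The truncated singular series `GG Q F` is close to the truncated Euler product `SS z F`
on average over the box.
-/

namespace Pool.Agent.H300R2.BH

open Finset Polynomial Filter
open Pool.Agent.H442R2.EHI (evt_log_pow evt_log_ge)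
open Pool.Agent.H394R2.BH (exc_count)
open Pool.Agent.H415R2.BH (sing_l2)
open Pool.Agent.H338R2.BH (tail_pointwise)

lemma rho_le (F : ℤ[X]) (p : ℕ) : rho F p ≤ p := by
  unfold rho
  exact (card_filter_le _ _).trans (by simp)

lemma tt_abs (F : ℤ[X]) (p : ℕ) (hp : 2 ≤ p) : |tt F p| ≤ 1 := by
  unfold tt
  have h1 : (rho F p : ℝ) ≤ p := by exact_mod_cast rho_le F p
  have h2 : (2:ℝ) ≤ p := by exact_mod_cast hp
  have h3 : (0:ℝ) ≤ rho F p := Nat.cast_nonneg _
  rw [abs_div, abs_of_pos (by linarith : (0:ℝ) < (p:ℝ) - 1), div_le_one (by linarith)]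
  rw [abs_le]
  constructor <;> linarith

lemma TT_abs (F : ℤ[X]) (q : ℕ) : |TT F q| ≤ 1 := by
  unfold TT
  rw [abs_prod]
  apply prod_le_one
  · intro p _; exact abs_nonneg _
  · intro p hp
    exact tt_abs F p (Nat.prime_of_mem_primeFactors hp).two_le

lemma GG_abs (Q : ℕ) (F : ℤ[X]) : |GG Q F| ≤ Q := by
  unfold GG
  refine (abs_sum_le_sum_abs _ _).trans ?_
  calc _ ≤ ∑ q ∈ (Icc 1 Q).filter Squarefree, (1:ℝ) := sum_le_sum fun q _ => TT_abs F q
    _ ≤ ∑ q ∈ Icc 1 Q, (1:ℝ) :=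
      sum_le_sum_of_subset_of_nonneg (filter_subset _ _) fun _ _ _ => zero_le_one
    _ = Q := by simp

lemma prod_le_z (z : ℕ) (hz : 1 ≤ z) :
    ∏ p ∈ (Icc 1 z).filter Nat.Prime, (1 - 1 / (p : ℝ))⁻¹ ≤ z := by
  have h1 : ∏ p ∈ (Icc 1 z).filter Nat.Prime, (1 - 1 / (p : ℝ))⁻¹ ≤
      ∏ n ∈ Icc 2 z, (1 - 1 / (n : ℝ))⁻¹ := by
    apply prod_le_prod_of_subset_of_one_le
    · intro p hp
      rw [mem_filter, mem_Icc] at hp
      rw [mem_Icc]
      exact ⟨hp.2.two_le, hp.1.2⟩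
    · intro p hp
      rw [mem_filter] at hp
      have : (2:ℝ) ≤ p := by exact_mod_cast hp.2.two_le
      have h2 : 1 / (p:ℝ) ≤ 1 / 2 := one_div_le_one_div_of_le (by norm_num) this
      apply inv_nonneg.mpr
      linarith
    · intro n hn _
      rw [mem_Icc] at hn
      have : (2:ℝ) ≤ n := by exact_mod_cast hn.1
      have h2 : 1 / (n:ℝ) ≤ 1 / 2 := one_div_le_one_div_of_le (by norm_num) this
      have h3 : 0 < 1 / (n:ℝ) := by positivity
      rw [one_le_inv₀ (by linarith)]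
      linarith
  refine h1.trans (le_of_eq ?_)
  clear h1
  induction z, hz using Nat.le_induction with
  | base => simp
  | succ n hn ih =>
    rw [← Finset.insert_Icc_right_eq_Icc_add_one (by omega), prod_insert (by simp), ih]
    have : (1:ℝ) ≤ n := by exact_mod_cast hn
    push_cast
    field_simp
    simp
    omega

lemma SS_abs (z : ℕ) (hz : 1 ≤ z) (F : ℤ[X]) : |SS z F| ≤ z := by
  refine le_trans ?_ (prod_le_z z hz)
  unfold SS
  rw [abs_prod]
  apply Finset.prod_le_prod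
  · intro p _; exact abs_nonneg _
  · intro p hp
    rw [mem_filter] at hp
    have h2 : (2:ℝ) ≤ p := by exact_mod_cast hp.2.two_le
    have h1 : (rho F p : ℝ) ≤ p := by exact_mod_cast rho_le F p
    have h3 : (0:ℝ) ≤ rho F p := Nat.cast_nonneg _
    have h4 : 1 / (p:ℝ) ≤ 1 / 2 := one_div_le_one_div_of_le (by norm_num) h2
    have h5 : (0:ℝ) < 1 - 1 / (p:ℝ) := by linarith
    rw [abs_div, abs_of_pos h5, div_eq_mul_inv]
    apply mul_le_of_le_one_left (by positivity)
    have h6 : (rho F p : ℝ) / p ≤ 1 := by rw [div_le_one (by linarith)]; exact h1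
    have h7 : 0 ≤ (rho F p : ℝ) / p := by positivity
    rw [abs_le]
    constructor <;> linarith

lemma ev_tail (c : ℝ) (hc : 0 < c) (a b : ℝ) : ∀ᶠ t : ℝ in atTop,
    (a + b * Real.log t) * Real.log t ≤ c * t := by
  have h1 : (fun t : ℝ => Real.log t ^ 2) =o[atTop] fun t : ℝ => t :=
    Real.isLittleO_pow_log_id_atTop
  have h2 := h1.bound (show (0:ℝ) < c / (|a| + |b| + 1) by positivity)
  filter_upwards [h2, eventually_ge_atTop (Real.exp 1)] with t ht ht2
  have ht0 : 0 < t := lt_of_lt_of_le (Real.exp_pos 1) ht2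
  have hl : 1 ≤ Real.log t := by
    rw [Real.le_log_iff_exp_le ht0]; exact ht2
  rw [Real.norm_of_nonneg (by positivity), Real.norm_of_nonneg ht0.le] at ht
  have h3 : (a + b * Real.log t) * Real.log t ≤ (|a| + |b|) * Real.log t ^ 2 := by
    have h4 : a * Real.log t ≤ |a| * Real.log t ^ 2 := by
      calc a * Real.log t ≤ |a| * Real.log t := by
            apply mul_le_mul_of_nonneg_right (le_abs_self a); linarith
        _ ≤ |a| * Real.log t ^ 2 := by
            apply mul_le_mul_of_nonneg_left _ (abs_nonneg a)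
            nlinarith
    have h5 : b * Real.log t ^ 2 ≤ |b| * Real.log t ^ 2 :=
      mul_le_mul_of_nonneg_right (le_abs_self b) (by positivity)
    nlinarith
  calc _ ≤ (|a| + |b|) * Real.log t ^ 2 := h3
    _ ≤ (|a| + |b| + 1) * (c / (|a| + |b| + 1) * t) := by
      apply mul_le_mul (by linarith) ht (by positivity) (by positivity)
    _ = c * t := by field_simp

theorem sing (j : ℕ) (hj : 1 ≤ j) (c : ℝ) (hc : 0 < c) (U E1 B' : ℕ)
    (hE1 : 8 * j + 2 * U + 8 ≤ E1) (hE1B : E1 ≤ B') : ∃ B x0 : ℕ, ∀ x : ℕ, x0 ≤ x →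
    ∀ (Q z A D a0 : ℕ) (R : ℤ[X]) (σ : ℤ), R.natDegree < j → (σ = 1 ∨ σ = -1) →
    Real.log x ^ E1 ≤ 2 * Q → (Q : ℝ) ≤ Real.log x ^ E1 → Q ≤ z → (z : ℝ) ≤ Real.log x ^ B' →
    (x : ℝ) ^ c ≤ A → A ≤ x → Real.log x ^ B ≤ D →
    ∑ a ∈ Ioc a0 (a0 + A), ∑ d ∈ Ioc D (2 * D), |GG Q (FF R j σ a d) - SS z (FF R j σ a d)| ≤
      A * D / Real.log x ^ U := by
  classical
  set W := B' + U + 3 with hW
  set B := W + B' + E1 with hB
  set M : ℕ := 3 * j * B' + 2 * W + U + 2 with hM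
  have hlogz : ∀ᶠ x : ℕ in atTop, (j * Real.log 100 + M * Real.log (Real.log x)) *
      (B' * Real.log (Real.log x)) ≤ (c / 16) * Real.log x := by
    have h := (Real.tendsto_log_atTop.comp (tendsto_natCast_atTop_atTop (R := ℝ))).eventually
      (ev_tail (c / 16) (by positivity) (B' * (j * Real.log 100)) (B' * M))
    filter_upwards [h] with x hx
    simp only [Function.comp] at hx
    calc _ = (B' * (j * Real.log 100) + B' * M * Real.log (Real.log x)) * Real.log (Real.log x) := by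
          ring
      _ ≤ _ := hx
  have hev : ∀ᶠ x : ℕ in atTop, 3 ≤ x ∧ 12800 * 2 ^ (8 * j) ≤ Real.log x ∧
      Real.log x ^ (2 * U + 8) ≤ (x : ℝ) ^ (c / 2) ∧ Real.log x ^ (W + B') ≤ (x : ℝ) ^ c ∧
      Real.log x ^ (E1 + 1) ≤ (x:ℝ) ^ (c / 8) ∧ (2 : ℝ) ≤ (x:ℝ) ^ (c / 16) ∧
      (j * Real.log 100 + M * Real.log (Real.log x)) *
      (B' * Real.log (Real.log x)) ≤ (c / 16) * Real.log x := by
    filter_upwards [eventually_ge_atTop 3, evt_log_ge (12800 * 2 ^ (8 * j)),
      evt_log_pow (2 * U + 8) (c / 2) (by positivity), evt_log_pow (W + B') c hc,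
      evt_log_pow (E1 + 1) (c / 8) (by positivity), evt_log_pow 1 (c / 16) (by positivity),
      evt_log_ge 2, hlogz] with x h1 h2 h3 h4 h5 h6 h7 h8
    refine ⟨h1, h2, h3, h4, h5, ?_, h8⟩
    rw [pow_one] at h6
    linarith
  obtain ⟨x0, hx0⟩ := eventually_atTop.mp hev
  refine ⟨B, x0, fun x hx Q z A D a0 R σ hR hσ hQ1 hQ2 hQz hzL hA hAx hDB => ?_⟩
  obtain ⟨hx3, hL, hLU, hLW, hLE, h2x, htail⟩ := hx0 x hx
  set L := Real.log x with hLdef
  have h28 : (1:ℝ) ≤ 2 ^ (8 * j) := one_le_pow₀ (by norm_num)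
  have hL12800 : (12800:ℝ) ≤ L := by nlinarith
  have hL0 : 0 < L := by linarith
  have hL1 : 1 ≤ L := by linarith
  have hLp0 : ∀ n : ℕ, 0 < L ^ n := fun n => by positivity
  have hLp : ∀ n : ℕ, 1 ≤ L ^ n := fun n => one_le_pow₀ hL1
  have hxr : (3:ℝ) ≤ x := by exact_mod_cast hx3
  have hx0' : (0:ℝ) < x := by linarith
  have hAxr : (A:ℝ) ≤ x := by exact_mod_cast hAx
  have hE1' : L ≤ L ^ E1 := by
    calc L = L ^ 1 := (pow_one L).symm
      _ ≤ L ^ E1 := pow_le_pow_right₀ hL1 (by omega)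
  have hQr : (2:ℝ) ≤ Q := by linarith
  have hQ2n : 2 ≤ Q := by exact_mod_cast hQr
  have hz2 : 2 ≤ z := by omega
  have hzr : (2:ℝ) ≤ z := by exact_mod_cast hz2
  have hA1 : (1:ℝ) ≤ A := ((hLp _).trans hLW).trans hA
  have hA0 : (0:ℝ) < A := by linarith
  have hD1 : (1:ℝ) ≤ D := (hLp _).trans hDB
  have hD0 : (0:ℝ) < D := by linarith
  -- `Z`
  set Z := ⌊(x:ℝ) ^ (c / 8)⌋₊ with hZ
  have hZle : (Z:ℝ) ≤ (x:ℝ) ^ (c / 8) := Nat.floor_le (by positivity)
  have hZge : (x:ℝ) ^ (c / 16) ≤ Z := by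
    have h1 : (x:ℝ) ^ (c / 8) < Z + 1 := Nat.lt_floor_add_one _
    have h2 : (x:ℝ) ^ (c / 8) = (x:ℝ) ^ (c / 16) * (x:ℝ) ^ (c / 16) := by
      rw [← Real.rpow_add hx0']; congr 1; ring
    nlinarith
  have hQZ : Q ≤ Z := by
    apply Nat.le_floor
    refine hQ2.trans (le_trans ?_ hLE)
    exact pow_le_pow_right₀ hL1 (by omega)
  have hx1r : (1:ℝ) ≤ x := by linarith
  have hZA : Z ≤ A := by
    have h1 : (Z:ℝ) ≤ A := by
      refine hZle.trans (le_trans ?_ hA)
      exact Real.rpow_le_rpow_of_exponent_le hx1r (by linarith)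
    exact_mod_cast h1
  have hZ1 : 1 ≤ Z := by omega
  have hZr : (1:ℝ) ≤ Z := by exact_mod_cast hZ1
  have hlogZ : Real.log Z ≤ L := by
    apply Real.log_le_log (by linarith)
    have : (Z:ℝ) ≤ A := by exact_mod_cast hZA
    linarith
  have hlogZ2 : (c / 16) * L ≤ Real.log Z := by
    rw [hLdef, ← Real.log_rpow hx0']
    exact Real.log_le_log (by positivity) hZge
  have hlogZ0 : 0 ≤ Real.log Z := Real.log_nonneg hZr
  -- `y`
  set y := ⌊L ^ W⌋₊ with hy
  have hyle : (y:ℝ) ≤ L ^ W := Nat.floor_le (by positivity)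
  have hyge : L ^ W ≤ 2 * y := by
    have h1 : L ^ W < y + 1 := Nat.lt_floor_add_one _
    have h2 : (1:ℝ) ≤ y := by
      have : 1 ≤ y := Nat.le_floor (by simpa using hLp W)
      exact_mod_cast this
    linarith
  have hy1 : 1 ≤ y := Nat.le_floor (by simpa using hLp W)
  have hyr : (1:ℝ) ≤ y := by exact_mod_cast hy1
  have hyz : (y:ℝ) * z ≤ L ^ (W + B') := by
    rw [pow_add]; gcongr
  have hyzA : y * z ≤ A := by
    have : (y:ℝ) * z ≤ A := hyz.trans (hLW.trans hA)
    exact_mod_cast this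
  have hyzD : y * z ≤ D := by
    have : (y:ℝ) * z ≤ D := by
      refine hyz.trans (le_trans ?_ hDB)
      exact pow_le_pow_right₀ hL1 (by omega)
    exact_mod_cast this
  -- the smooth numbers
  set P : ℕ → Prop := fun q => Squarefree q ∧ ∀ p ∈ q.primeFactors, p ≤ z with hP
  set Y : ℕ → ℕ → ℝ := fun a d => ∑ q ∈ (Ioc Q Z).filter P, TT (FF R j σ a d) q with hY
  have hsplit : ∀ F : ℤ[X], ∑ q ∈ (Icc 1 Z).filter P, TT F q =
      GG Q F + ∑ q ∈ (Ioc Q Z).filter P, TT F q := by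
    intro F
    unfold GG
    have h1 : (Icc 1 Z).filter P = (Icc 1 Q).filter Squarefree ∪ (Ioc Q Z).filter P := by
      ext q
      simp only [mem_union, mem_filter, mem_Icc, mem_Ioc]
      constructor
      · rintro ⟨⟨h1, h2⟩, h3⟩
        by_cases h4 : q ≤ Q
        · left; exact ⟨⟨h1, h4⟩, h3.1⟩
        · right; exact ⟨⟨by omega, h2⟩, h3⟩
      · rintro (⟨⟨h1, h2⟩, h3⟩ | ⟨⟨h1, h2⟩, h3⟩)
        · refine ⟨⟨h1, by omega⟩, h3, fun p hp => ?_⟩
          have := Nat.le_of_mem_primeFactors hp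
          omega
        · exact ⟨⟨by omega, h2⟩, h3⟩
    rw [h1, sum_union]
    rw [disjoint_left]
    intro q hq hq2
    rw [mem_filter, mem_Icc] at hq
    rw [mem_filter, mem_Ioc] at hq2
    omega
  set Exc := ((Ioc a0 (a0 + A)) ×ˢ (Ioc D (2 * D))).filter (fun ad : ℕ × ℕ =>
      y < bad z (FF R j σ ad.1 ad.2)) with hExc
  have hexc := exc_count j hj R hR σ hσ A D a0 z y hy1 (by omega) hyzA hyzD
  rw [← hExc] at hexc
  set τ : ℝ := 1 / L ^ (U + 2) with hτ
  have hτ0 : 0 < τ := by positivity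
  -- pointwise bound
  have hFdeg : ∀ a d : ℕ, (FF R j σ a d).natDegree ≤ j := by
    intro a d
    unfold FF
    refine (natDegree_add_le _ _).trans (max_le ?_ ?_)
    · refine (natDegree_add_le _ _).trans (max_le ?_ (by omega))
      rw [natDegree_C]; omega
    · exact (natDegree_C_mul_X_pow_le _ _)
  have hpt : ∀ ad ∈ (Ioc a0 (a0 + A)) ×ˢ (Ioc D (2 * D)),
      |GG Q (FF R j σ ad.1 ad.2) - SS z (FF R j σ ad.1 ad.2)| ≤
      |Y ad.1 ad.2| + τ + (if ad ∈ Exc then 2 * L ^ B' else 0) := by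
    intro ad had
    by_cases h : ad ∈ Exc
    · rw [if_pos h]
      have h1 := GG_abs Q (FF R j σ ad.1 ad.2)
      have h2 := SS_abs z (by omega) (FF R j σ ad.1 ad.2)
      have h3 := abs_sub (GG Q (FF R j σ ad.1 ad.2)) (SS z (FF R j σ ad.1 ad.2))
      have h4 : (Q:ℝ) ≤ z := by exact_mod_cast hQz
      have h5 := abs_nonneg (Y ad.1 ad.2)
      linarith
    · rw [if_neg h, add_zero]
      have hb : bad z (FF R j σ ad.1 ad.2) ≤ y := by
        by_contra hlt
        push Not at hlt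
        exact h (mem_filter.mpr ⟨had, hlt⟩)
      have h1 := tail_pointwise j hj (FF R j σ ad.1 ad.2) (hFdeg _ _) z Z hz2 hZ1 y hyr
        (by exact_mod_cast hb)
      rw [hsplit] at h1
      have h2 : Real.exp (-(Real.log Z / Real.log z)) * 100 ^ j * (z : ℝ) ^ (3 * j) * (y:ℝ) ^ 2 ≤
          τ := by
        have hlz0 : 0 < Real.log z := Real.log_pos (by linarith)
        have hloglog : 0 < Real.log L := Real.log_pos (by linarith)
        have hlz : Real.log z ≤ B' * Real.log L := by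
          rw [← Real.log_pow]
          exact Real.log_le_log (by linarith) hzL
        have hmain : j * Real.log 100 + M * Real.log L ≤ Real.log Z / Real.log z := by
          rw [le_div_iff₀ hlz0]
          have h100 : 0 ≤ Real.log 100 := Real.log_nonneg (by norm_num)
          calc (j * Real.log 100 + M * Real.log L) * Real.log z
              ≤ (j * Real.log 100 + M * Real.log L) * (B' * Real.log L) := by
                apply mul_le_mul_of_nonneg_left hlz
                positivity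
            _ ≤ (c / 16) * L := htail
            _ ≤ Real.log Z := hlogZ2
        have he : Real.exp (-(Real.log Z / Real.log z)) ≤ 1 / (100 ^ j * L ^ M) := by
          have : Real.exp (j * Real.log 100 + M * Real.log L) = 100 ^ j * L ^ M := by
            rw [Real.exp_add, ← Real.log_pow, ← Real.log_pow, Real.exp_log (by positivity),
              Real.exp_log (by positivity)]
          rw [Real.exp_neg, ← this, ← one_div]
          exact one_div_le_one_div_of_le (Real.exp_pos _) (Real.exp_le_exp.mpr hmain)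
        calc Real.exp (-(Real.log Z / Real.log z)) * 100 ^ j * (z : ℝ) ^ (3 * j) * (y:ℝ) ^ 2
            ≤ 1 / (100 ^ j * L ^ M) * 100 ^ j * (L ^ B') ^ (3 * j) * (L ^ W) ^ 2 := by gcongr
          _ = τ := by
            rw [hτ, ← pow_mul, ← pow_mul]
            have : L ^ M = L ^ (B' * (3 * j)) * L ^ (W * 2) * L ^ (U + 2) := by
              rw [← pow_add, ← pow_add, hM]; congr 1; ring
            rw [this]
            field_simp
      have h3 : |SS z (FF R j σ ad.1 ad.2) - (GG Q (FF R j σ ad.1 ad.2) + Y ad.1 ad.2)| ≤ τ :=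
        h1.trans h2
      have h4 := abs_le.mp h3
      have h5 := neg_abs_le (Y ad.1 ad.2)
      have h6 := le_abs_self (Y ad.1 ad.2)
      rw [abs_le]
      constructor <;> linarith [h4.1, h4.2]
  -- the second moment of `Y`
  have hYsq := sing_l2 j hj R hR σ hσ A D a0 Q Z z (by omega) hQZ hZA (by exact_mod_cast hD1)
  have hYb : 4 * (A : ℝ) * ((D : ℝ) / Q + 1) * (1 + Real.log Z) ^ (8 * j) + (D : ℝ) * (Z : ℝ) ^ 4 ≤
      A * D / L ^ (2 * U + 6) := by
    have p1 : 4 * (A : ℝ) * ((D : ℝ) / Q + 1) * (1 + Real.log Z) ^ (8 * j) ≤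
        A * D / (2 * L ^ (2 * U + 6)) := by
      have q1 : (D:ℝ) / Q + 1 ≤ 3 * D / L ^ E1 := by
        have r1 : (D:ℝ) / Q ≤ 2 * D / L ^ E1 := by
          rw [div_le_div_iff₀ (by linarith) (hLp0 _)]
          nlinarith
        have r2 : (1:ℝ) ≤ D / L ^ E1 := by
          rw [le_div_iff₀ (hLp0 _), one_mul]
          refine le_trans ?_ hDB
          exact pow_le_pow_right₀ hL1 (by omega)
        calc (D:ℝ) / Q + 1 ≤ 2 * D / L ^ E1 + D / L ^ E1 := add_le_add r1 r2
          _ = 3 * D / L ^ E1 := by ring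
      have q2 : (1 + Real.log Z) ^ (8 * j) ≤ 2 ^ (8 * j) * L ^ (8 * j) := by
        rw [← mul_pow]
        apply pow_le_pow_left₀ (by linarith)
        linarith
      calc 4 * (A : ℝ) * ((D : ℝ) / Q + 1) * (1 + Real.log Z) ^ (8 * j)
          ≤ 4 * (A : ℝ) * (3 * D / L ^ E1) * (2 ^ (8 * j) * L ^ (8 * j)) := by gcongr
        _ = (12 * 2 ^ (8 * j)) * (A * D) * (L ^ (8 * j) / L ^ E1) := by ring
        _ ≤ L * (A * D) * (L ^ (8 * j) / L ^ (8 * j + 2 * U + 8)) := by
            gcongr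
            nlinarith
        _ = A * D / (L * L ^ (2 * U + 6)) := by
            rw [show 8 * j + 2 * U + 8 = 8 * j + (2 * U + 6) + 2 by ring, pow_add, pow_add]
            field_simp
        _ ≤ _ := by
            gcongr
            linarith
    have p2 : (D : ℝ) * (Z : ℝ) ^ 4 ≤ A * D / (2 * L ^ (2 * U + 6)) := by
      have q1 : (Z:ℝ) ^ 4 ≤ (x:ℝ) ^ (c / 2) := by
        calc (Z:ℝ) ^ 4 ≤ ((x:ℝ) ^ (c / 8)) ^ 4 := by gcongr
          _ = (x:ℝ) ^ (c / 2) := by
            rw [← Real.rpow_natCast, ← Real.rpow_mul hx0'.le]; congr 1; push_cast; ring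
      have q2 : (x:ℝ) ^ (c / 2) * (x:ℝ) ^ (c / 2) ≤ A := by
        rw [← Real.rpow_add hx0', show c / 2 + c / 2 = c by ring]; exact hA
      rw [le_div_iff₀ (by positivity)]
      have q3 : 2 * L ^ (2 * U + 6) ≤ (x:ℝ) ^ (c / 2) := by
        refine le_trans ?_ hLU
        rw [show 2 * U + 8 = (2 * U + 6) + 1 + 1 by ring, pow_succ, pow_succ]
        have h0 : 0 < L ^ (2 * U + 6) := hLp0 _
        have h22 : (2:ℝ) ≤ L * L := by nlinarith
        calc 2 * L ^ (2 * U + 6) = L ^ (2 * U + 6) * 2 := by ring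
          _ ≤ L ^ (2 * U + 6) * (L * L) := by gcongr
          _ = _ := by ring
      calc (D : ℝ) * (Z : ℝ) ^ 4 * (2 * L ^ (2 * U + 6)) ≤
            D * (x:ℝ) ^ (c / 2) * (x:ℝ) ^ (c / 2) := by gcongr
        _ = ((x:ℝ) ^ (c / 2) * (x:ℝ) ^ (c / 2)) * D := by ring
        _ ≤ A * D := by gcongr
    calc _ ≤ A * D / (2 * L ^ (2 * U + 6)) + A * D / (2 * L ^ (2 * U + 6)) := add_le_add p1 p2
      _ = _ := by field_simp; ring
  have hYL1 : ∑ a ∈ Ioc a0 (a0 + A), ∑ d ∈ Ioc D (2 * D), |Y a d| ≤ A * D / L ^ (U + 2) := by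
    have h1 : ∑ a ∈ Ioc a0 (a0 + A), ∑ d ∈ Ioc D (2 * D), |Y a d| ^ 2 ≤
        A * D / L ^ (2 * U + 6) := by
      refine le_trans (le_of_eq ?_) (hYsq.trans hYb)
      refine sum_congr rfl fun a _ => sum_congr rfl fun d _ => ?_
      rw [sq_abs]
    rw [← sum_product'] at h1 ⊢
    have hcard : (((Ioc a0 (a0 + A)) ×ˢ (Ioc D (2 * D))).card : ℝ) = A * D := by
      rw [card_product, Nat.card_Ioc, Nat.card_Ioc, show a0 + A - a0 = A by omega,
        show 2 * D - D = D by omega]; push_cast; ring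
    have h2 := sq_sum_le_card_mul_sum_sq (s := (Ioc a0 (a0 + A)) ×ˢ (Ioc D (2 * D)))
      (f := fun ad : ℕ × ℕ => |Y ad.1 ad.2|)
    rw [hcard] at h2
    apply le_of_sq_le_sq _ (by positivity)
    refine h2.trans ?_
    calc (A:ℝ) * D * _ ≤ A * D * (A * D / L ^ (2 * U + 6)) := by gcongr
      _ ≤ A * D * (A * D / L ^ (2 * (U + 2))) := by
          gcongr
          · omega
      _ = _ := by rw [div_pow, ← pow_mul, mul_comm 2 (U + 2)]; ring
  -- conclusion
  rw [← sum_product']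
  refine (sum_le_sum hpt).trans ?_
  rw [sum_add_distrib, sum_add_distrib]
  have s1 : ∑ ad ∈ (Ioc a0 (a0 + A)) ×ˢ (Ioc D (2 * D)), |Y ad.1 ad.2| ≤ A * D / L ^ (U + 2) := by
    rw [sum_product]; exact hYL1
  have s2 : ∑ ad ∈ (Ioc a0 (a0 + A)) ×ˢ (Ioc D (2 * D)), τ = A * D / L ^ (U + 2) := by
    rw [sum_const, card_product, Nat.card_Ioc, Nat.card_Ioc, show a0 + A - a0 = A by omega,
        show 2 * D - D = D by omega, nsmul_eq_mul, hτ]
    push_cast; ring
  have s3 : ∑ ad ∈ (Ioc a0 (a0 + A)) ×ˢ (Ioc D (2 * D)), (if ad ∈ Exc then 2 * L ^ B' else 0) ≤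
      A * D / L ^ (U + 2) := by
    rw [← sum_filter, sum_const, nsmul_eq_mul]
    have h1 : ((((Ioc a0 (a0 + A)) ×ˢ (Ioc D (2 * D))).filter (fun ad => ad ∈ Exc)).card : ℝ) ≤
        16 * A * D / y := by
      refine le_trans ?_ hexc
      have : ((Ioc a0 (a0 + A)) ×ˢ (Ioc D (2 * D))).filter (fun ad => ad ∈ Exc) ⊆ Exc :=
        fun ad had => (mem_filter.mp had).2
      exact_mod_cast card_le_card this
    have h2 : (1:ℝ) / y ≤ 2 / L ^ W := by
      rw [div_le_div_iff₀ (by linarith) (hLp0 _)]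
      linarith
    calc _ ≤ (16 * A * D / y) * (2 * L ^ B') := by gcongr
      _ = 32 * (A * D) * L ^ B' * (1 / y) := by ring
      _ ≤ 32 * (A * D) * L ^ B' * (2 / L ^ W) := by gcongr
      _ = (A * D / L ^ (U + 2)) * (64 / L) := by
          rw [hW, show B' + U + 3 = B' + (U + 2) + 1 by ring, pow_succ, pow_add]
          field_simp
          ring
      _ ≤ (A * D / L ^ (U + 2)) * 1 := by
          apply mul_le_mul_of_nonneg_left _ (by positivity)
          rw [div_le_one hL0]; linarith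
      _ = _ := mul_one _
  calc _ ≤ A * D / L ^ (U + 2) + A * D / L ^ (U + 2) + A * D / L ^ (U + 2) := by
        rw [s2]; gcongr
    _ = (A * D / L ^ U) * (3 / L ^ 2) := by rw [pow_add]; field_simp; ring
    _ ≤ (A * D / L ^ U) * 1 := by
        apply mul_le_mul_of_nonneg_left _ (by positivity)
        rw [div_le_one (by positivity)]
        nlinarith
    _ = _ := mul_one _

end Pool.Agent.H300R2.BH
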