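import Pool.Agent.H43.G.R_seed8.H300R2.BH.Chow
import Pool.Agent.H43.G.R_seed8.H300R2.BH.Sing
import Pool.Agent.H43.G.R_seed8.H465R2.BH_ModelP
import Pool.Agent.H43.G.R_seed8.H475R2.BH_SingAlg

/-!
Bateman-Horn for almost all polynomials `a + R(k) + σ d k^j` in short boxes.
-/

namespace Pool.Agent.H300R2.BH

open Finset Polynomial Filter
open Pool.Agent.H469R2.NK (e norm_e e_add conj_e e_zero)
open Pool.Agent.H442R2.EHI (norm_add_sq_le evt_log_pow evt_log_ge ff gg ff_fourier ff_sq ff_bound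
  ff_zero_of_gt)
open Pool.Agent.H465R2.BH (modelP)
open Pool.Agent.H475R2.BH (gq_eq)
open Pool.Agent.H415R2.BH (sing_l2)

/-- number of `k ∈ [1, K]` with `F(k)` prime -/
noncomputable def pv (F : ℤ[X]) (K : ℕ) : ℝ :=
  (((Icc 1 K).filter (fun k : ℕ => (F.eval (k : ℤ)).toNat.Prime)).card : ℝ)

/-- `∑ 1 / log F(k)` over `k ∈ [1, K]` with `F(k) ≥ 2` -/
noncomputable def lF (F : ℤ[X]) (K : ℕ) : ℝ :=
  ∑ k ∈ (Icc 1 K).filter (fun k : ℕ => 2 ≤ F.eval (k : ℤ)), 1 / Real.log ((F.eval (k : ℤ) : ℤ) : ℝ)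

/-- the mean value of `|GG|` -/
lemma gg_mean (j : ℕ) (hj : 1 ≤ j) (c : ℝ) (hc : 0 < c) (E1 : ℕ) : ∃ x0 : ℕ, ∀ x : ℕ, x0 ≤ x →
    ∀ (Q A D a0 : ℕ) (R : ℤ[X]) (σ : ℤ), R.natDegree < j → (σ = 1 ∨ σ = -1) →
    1 ≤ Q → (Q : ℝ) ≤ Real.log x ^ E1 → (x : ℝ) ^ c ≤ A → 1 ≤ D →
    ∑ a ∈ Ioc a0 (a0 + A), ∑ d ∈ Ioc D (2 * D), |GG Q (FF R j σ a d)| ≤
      A * D * Real.log x := by
  classical
  have hlogs : ∀ᶠ x : ℕ in atTop, 16 * (1 + E1 * Real.log (Real.log x)) ^ (8 * j) ≤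
      Real.log x := by
    have h1 : (fun t : ℝ => Real.log t ^ (8 * j)) =o[atTop] fun t : ℝ => t :=
      Real.isLittleO_pow_log_id_atTop
    have h2 := h1.bound (show (0:ℝ) < 1 / (16 * (1 + E1) ^ (8 * j)) by positivity)
    have h3 := (Real.tendsto_log_atTop.comp (tendsto_natCast_atTop_atTop (R := ℝ))).eventually h2
    filter_upwards [h3, evt_log_ge (Real.exp 1)] with x hx hx2
    simp only [Function.comp] at hx
    have ht0 : 0 < Real.log x := lt_of_lt_of_le (Real.exp_pos 1) hx2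
    have hl : 1 ≤ Real.log (Real.log x) := by
      rw [Real.le_log_iff_exp_le ht0]; exact hx2
    rw [Real.norm_of_nonneg (by positivity), Real.norm_of_nonneg ht0.le] at hx
    calc 16 * (1 + E1 * Real.log (Real.log x)) ^ (8 * j)
        ≤ 16 * ((1 + E1) * Real.log (Real.log x)) ^ (8 * j) := by
          gcongr
          nlinarith [(Nat.cast_nonneg E1 : (0:ℝ) ≤ E1)]
      _ = (16 * (1 + E1) ^ (8 * j)) * Real.log (Real.log x) ^ (8 * j) := by
          rw [mul_pow]; ring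
      _ ≤ (16 * (1 + E1) ^ (8 * j)) * (1 / (16 * (1 + E1) ^ (8 * j)) * Real.log x) := by
          gcongr
      _ = Real.log x := by field_simp
  have hev : ∀ᶠ x : ℕ in atTop, 3 ≤ x ∧ 4 ≤ Real.log x ∧
      Real.log x ^ (4 * E1 + 1) ≤ (x : ℝ) ^ c ∧
      16 * (1 + E1 * Real.log (Real.log x)) ^ (8 * j) ≤ Real.log x := by
    filter_upwards [eventually_ge_atTop 3, evt_log_ge 4, evt_log_pow (4 * E1 + 1) c hc, hlogs]
      with x h1 h2 h3 h4
    exact ⟨h1, h2, h3, h4⟩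
  obtain ⟨x0, hx0⟩ := eventually_atTop.mp hev
  refine ⟨x0, fun x hx Q A D a0 R σ hR hσ hQ1 hQ2 hA hD => ?_⟩
  obtain ⟨hx3, hL, hLc, hlog⟩ := hx0 x hx
  set L := Real.log x with hLdef
  have hL0 : 0 < L := by linarith
  have hL1 : 1 ≤ L := by linarith
  have hLp0 : ∀ n : ℕ, 0 < L ^ n := fun n => by positivity
  have hLp : ∀ n : ℕ, 1 ≤ L ^ n := fun n => one_le_pow₀ hL1
  have hQr : (1:ℝ) ≤ Q := by exact_mod_cast hQ1
  have hDr : (1:ℝ) ≤ D := by exact_mod_cast hD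
  have hA1 : (1:ℝ) ≤ A := ((hLp _).trans hLc).trans hA
  have hQA : Q ≤ A := by
    have : (Q:ℝ) ≤ A := by
      refine hQ2.trans (le_trans ?_ (hLc.trans hA))
      exact pow_le_pow_right₀ hL1 (by omega)
    exact_mod_cast this
  have hsm := sing_l2 j hj R hR σ hσ A D a0 1 Q Q le_rfl hQ1 hQA hD
  have hGG : ∀ F : ℤ[X], GG Q F = 1 +
      ∑ q ∈ (Ioc 1 Q).filter (fun q => Squarefree q ∧ ∀ p ∈ q.primeFactors, p ≤ Q), TT F q := by
    intro F
    unfold GG
    have h1 : (Icc 1 Q).filter Squarefree = insert 1 ((Ioc 1 Q).filter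
        (fun q => Squarefree q ∧ ∀ p ∈ q.primeFactors, p ≤ Q)) := by
      ext q
      simp only [mem_insert, mem_filter, mem_Icc, mem_Ioc]
      constructor
      · rintro ⟨⟨h1, h2⟩, h3⟩
        by_cases h4 : q = 1
        · left; exact h4
        · right
          refine ⟨⟨by omega, h2⟩, h3, fun p hp => ?_⟩
          have := Nat.le_of_mem_primeFactors hp
          omega
      · rintro (h | ⟨⟨h1, h2⟩, h3⟩)
        · subst h; exact ⟨⟨le_rfl, hQ1⟩, squarefree_one⟩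
        · exact ⟨⟨by omega, h2⟩, h3.1⟩
    rw [h1, sum_insert (by simp)]
    congr 1
    unfold TT
    simp
  set Y : ℕ → ℕ → ℝ := fun a d => ∑ q ∈ (Ioc 1 Q).filter
    (fun q => Squarefree q ∧ ∀ p ∈ q.primeFactors, p ≤ Q), TT (FF R j σ a d) q with hY
  have hlogQ : 1 + Real.log Q ≤ 1 + E1 * Real.log L := by
    have : Real.log Q ≤ E1 * Real.log L := by
      rw [← Real.log_pow]
      exact Real.log_le_log (by linarith) hQ2
    linarith
  have hlogQ0 : 0 ≤ Real.log Q := Real.log_nonneg hQr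
  have hb : 4 * (A : ℝ) * ((D : ℝ) / (1 : ℕ) + 1) * (1 + Real.log Q) ^ (8 * j) + (D : ℝ) * (Q : ℝ) ^ 4 ≤
      A * D * L := by
    have p1 : 4 * (A : ℝ) * ((D : ℝ) / (1 : ℕ) + 1) * (1 + Real.log Q) ^ (8 * j) ≤ A * D * L / 2 := by
      calc 4 * (A : ℝ) * ((D : ℝ) / (1 : ℕ) + 1) * (1 + Real.log Q) ^ (8 * j)
          ≤ 4 * (A : ℝ) * (2 * D) * (1 + E1 * Real.log L) ^ (8 * j) := by
            gcongr
            push_cast
            linarith
        _ = (A * D / 2) * (16 * (1 + E1 * Real.log L) ^ (8 * j)) := by ring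
        _ ≤ (A * D / 2) * L := by gcongr
        _ = _ := by ring
    have p2 : (D : ℝ) * (Q : ℝ) ^ 4 ≤ A * D * L / 2 := by
      calc (D : ℝ) * (Q : ℝ) ^ 4 ≤ D * (L ^ E1) ^ 4 := by gcongr
        _ = D * L ^ (4 * E1) := by rw [← pow_mul, mul_comm E1 4]
        _ ≤ D * L ^ (4 * E1 + 1) := by
            gcongr
            · omega
        _ ≤ D * A := by
            gcongr
            exact hLc.trans hA
        _ = A * D * 1 := by ring
        _ ≤ A * D * (L / 2) := by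
            gcongr
            linarith
        _ = _ := by ring
    linarith
  have hsm' : ∑ a ∈ Ioc a0 (a0 + A), ∑ d ∈ Ioc D (2 * D), |Y a d| ^ 2 ≤ A * D * L := by
    refine le_trans (le_of_eq ?_) (hsm.trans hb)
    refine sum_congr rfl fun a _ => sum_congr rfl fun d _ => ?_
    rw [sq_abs]
  have hcard : (((Ioc a0 (a0 + A)) ×ˢ (Ioc D (2 * D))).card : ℝ) = A * D := by
    rw [card_product, Nat.card_Ioc, Nat.card_Ioc, show a0 + A - a0 = A by omega,
      show 2 * D - D = D by omega]; push_cast; ring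
  rw [← sum_product'] at hsm' ⊢
  have hYL1 : ∑ ad ∈ (Ioc a0 (a0 + A)) ×ˢ (Ioc D (2 * D)), |Y ad.1 ad.2| ≤ A * D * (L / 2) := by
    have h2 := sq_sum_le_card_mul_sum_sq (s := (Ioc a0 (a0 + A)) ×ˢ (Ioc D (2 * D)))
      (f := fun ad : ℕ × ℕ => |Y ad.1 ad.2|)
    rw [hcard] at h2
    apply le_of_sq_le_sq _ (by positivity)
    refine h2.trans ?_
    calc (A:ℝ) * D * _ ≤ A * D * (A * D * L) := by gcongr
      _ = (A * D) ^ 2 * L := by ring
      _ ≤ (A * D) ^ 2 * (L / 2) ^ 2 := by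
          gcongr
          nlinarith
      _ = _ := by ring
  calc ∑ ad ∈ (Ioc a0 (a0 + A)) ×ˢ (Ioc D (2 * D)), |GG Q (FF R j σ ad.1 ad.2)|
      ≤ ∑ ad ∈ (Ioc a0 (a0 + A)) ×ˢ (Ioc D (2 * D)), (1 + |Y ad.1 ad.2|) := by
        refine sum_le_sum fun ad _ => ?_
        rw [hGG]
        refine (abs_add_le _ _).trans ?_
        rw [abs_one]
    _ = A * D + ∑ ad ∈ (Ioc a0 (a0 + A)) ×ˢ (Ioc D (2 * D)), |Y ad.1 ad.2| := by
        rw [sum_add_distrib, sum_const, nsmul_eq_mul, hcard, mul_one]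
    _ ≤ A * D * 1 + A * D * (L / 2) := by rw [mul_one]; gcongr
    _ ≤ A * D * (L / 2) + A * D * (L / 2) := by
        gcongr
        linarith
    _ = _ := by ring

/-- the box conditions for primes: all values `a + R(k) + σ d k^j` lie in `[1, x]` and are
of size about `x` -/
def BoxP (j x K D A a0 : ℕ) (σ : ℤ) : Prop :=
  (σ = 1 ∧ a0 + A + 2 * D * K ^ j + K ^ j ≤ x) ∨
  (σ = -1 ∧ 4 * D * K ^ j ≤ a0 ∧ a0 + A + K ^ j ≤ x)

lemma boxP_box {j x K D A a0 : ℕ} {σ : ℤ} (hD : 1 ≤ D) (h : BoxP j x K D A a0 σ) :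
    Box j x K D A a0 σ := by
  rcases h with h | ⟨h1, h2, h3⟩
  · exact Or.inl h
  · refine Or.inr ⟨h1, ?_, h3⟩
    have h4 : K ^ j ≤ D * K ^ j := Nat.le_mul_of_pos_left _ hD
    have h5 : 4 * D * K ^ j = 2 * D * K ^ j + D * K ^ j + D * K ^ j := by ring
    omega

lemma pow_diff (j k K : ℕ) (h : k + 1 ≤ K) : (k + 1) ^ j ≤ k ^ j + j * K ^ (j - 1) := by
  induction j with
  | zero => simp
  | succ j ih =>
    rcases Nat.eq_zero_or_pos j with h0 | h0
    · subst h0; simp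
    · have h1 : (k + 1) ^ (j + 1) = (k + 1) ^ j * k + (k + 1) ^ j := by ring
      have h2 : (k + 1) ^ j ≤ K ^ j := Nat.pow_le_pow_left h j
      have h3 : (k + 1) ^ j * k ≤ (k ^ j + j * K ^ (j - 1)) * k := Nat.mul_le_mul_right k ih
      have h4 : K ^ (j - 1) * K = K ^ j := by
        rw [← pow_succ]; congr 1; omega
      have h5 : j * K ^ (j - 1) * k ≤ j * K ^ j := by
        rw [← h4, ← mul_assoc]
        exact Nat.mul_le_mul_left _ (by omega)
      have h6 : (k ^ j + j * K ^ (j - 1)) * k = k ^ (j + 1) + j * K ^ (j - 1) * k := by ring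
      simp only [Nat.add_sub_cancel]
      have h7 : (j + 1) * K ^ j = j * K ^ j + K ^ j := by ring
      rw [h1, h7]
      omega

end Pool.Agent.H300R2.BH
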