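import Pool.Agent.H43.G.R_seed8.H300R2.BH.Core
import Pool.Agent.H43.G.R_seed8.H534R2.BH_Lam

/-!
Mean values of bounded functions along the polynomials `a + R(k) + σ d k^j`.
-/

namespace Pool.Agent.H300R2.BH

open Finset Polynomial Filter
open Pool.Agent.H469R2.NK (e norm_e e_add conj_e e_zero)
open Pool.Agent.H442R2.EHI (norm_add_sq_le evt_log_pow evt_log_ge)

/-- the box conditions: all values `a + R(k) + σ d k^j` lie in `[1, x]` -/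
def Box (j x K D A a0 : ℕ) (σ : ℤ) : Prop :=
  (σ = 1 ∧ a0 + A + 2 * D * K ^ j + K ^ j ≤ x) ∨
  (σ = -1 ∧ 2 * D * K ^ j + K ^ j ≤ a0 ∧ a0 + A + K ^ j ≤ x)

lemma box_val {j x K D A a0 : ℕ} {σ : ℤ} (h : Box j x K D A a0 σ) (R : ℤ[X]) {a d k : ℕ}
    (ha : a ∈ Ioc a0 (a0 + A)) (hd : d ∈ Ioc D (2 * D)) (hk : k ∈ Icc 1 K)
    (hR : |R.eval (k : ℤ)| ≤ ((K ^ j : ℕ) : ℤ)) (hR2 : σ = 1 → |R.eval (k : ℤ)| < d * k ^ j) :
    1 ≤ (FF R j σ a d).eval (k : ℤ) ∧ (FF R j σ a d).eval (k : ℤ) ≤ x := by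
  rw [mem_Ioc] at ha hd
  rw [mem_Icc] at hk
  rw [FF_eval]
  have hRk := abs_le.mp hR
  have h1 : k ^ j ≤ K ^ j := Nat.pow_le_pow_left hk.2 j
  have h2 : d * k ^ j ≤ 2 * D * K ^ j := Nat.mul_le_mul hd.2 h1
  have h2' : ((d : ℤ) * (k : ℤ) ^ j) ≤ 2 * D * ((K ^ j : ℕ) : ℤ) := by exact_mod_cast h2
  have h0 : (0:ℤ) ≤ (d : ℤ) * (k : ℤ) ^ j := by positivity
  rcases h with ⟨rfl, h3⟩ | ⟨rfl, h3, h4⟩
  · have h5 := abs_lt.mp (hR2 rfl)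
    have h3' : (a0 : ℤ) + A + 2 * D * ((K ^ j : ℕ) : ℤ) + ((K ^ j : ℕ) : ℤ) ≤ x := by
      exact_mod_cast h3
    have ha1 : (a : ℤ) ≤ a0 + A := by exact_mod_cast ha.2
    have ha2 : (0 : ℤ) ≤ a := by positivity
    have : (a : ℤ) + R.eval (k : ℤ) + 1 * d * (k : ℤ) ^ j =
        a + R.eval (k : ℤ) + d * (k : ℤ) ^ j := by ring
    rw [this]
    constructor <;> linarith [h5.1, h5.2, hRk.1, hRk.2]
  · have h3' : 2 * D * ((K ^ j : ℕ) : ℤ) + ((K ^ j : ℕ) : ℤ) ≤ a0 := by exact_mod_cast h3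
    have h4' : (a0 : ℤ) + A + ((K ^ j : ℕ) : ℤ) ≤ x := by exact_mod_cast h4
    have ha1 : (a : ℤ) ≤ a0 + A := by exact_mod_cast ha.2
    have ha2 : (a0 : ℤ) + 1 ≤ a := by exact_mod_cast ha.1
    have : (a : ℤ) + R.eval (k : ℤ) + -1 * d * (k : ℤ) ^ j =
        a + R.eval (k : ℤ) - d * (k : ℤ) ^ j := by ring
    rw [this]
    constructor <;> linarith [hRk.1, hRk.2]

lemma box_haA {j x K D A a0 : ℕ} {σ : ℤ} (h : Box j x K D A a0 σ) : a0 + A ≤ x := by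
  rcases h with ⟨-, h3⟩ | ⟨-, h3, h4⟩ <;> omega

lemma box_DK {j x K D A a0 : ℕ} {σ : ℤ} (h : Box j x K D A a0 σ) : D * K ^ j ≤ x := by
  rcases h with ⟨-, h3⟩ | ⟨-, h3, h4⟩
  · have : 2 * D * K ^ j = D * K ^ j + D * K ^ j := by ring
    omega
  · have : 2 * D * K ^ j = D * K ^ j + D * K ^ j := by ring
    omega

lemma box_sigma {j x K D A a0 : ℕ} {σ : ℤ} (h : Box j x K D A a0 σ) : σ = 1 ∨ σ = -1 := by
  rcases h with ⟨h, -⟩ | ⟨h, -⟩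
  · exact Or.inl h
  · exact Or.inr h

/-- **Mean square of a bounded Siegel-Walfisz function along `a + R(k) + σ d k^j`.** -/
theorem mean_small (j : ℕ) (hj : 1 ≤ j) (ε : ℝ) (hε : 0 < ε) (E0 U : ℕ) (g : ℕ → ℂ)
    (hg : ∀ n, ‖g n‖ ≤ 1)
    (hF : ∀ E1 E3 : ℕ, ∃ x0 : ℕ, ∀ x : ℕ, x0 ≤ x → ∀ q : ℕ, 1 ≤ q → (q : ℝ) ≤ Real.log x ^ E1 →
      ∀ b : ℤ, ∀ β : ℝ, |β - (b : ℝ) / (q : ℝ)| ≤ Real.log x ^ E3 / x →
      ‖∑ n ∈ Icc 1 x, g n * e (n * β)‖ ≤ x / Real.log x ^ (2 * E3)) :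
    ∃ B x0 : ℕ, ∀ x : ℕ, x0 ≤ x → ∀ (K D A a0 : ℕ) (R : ℤ[X]) (σ : ℤ), Box j x K D A a0 σ →
    (x : ℝ) ≤ D * (K : ℝ) ^ j * Real.log x ^ E0 → (x : ℝ) ^ ε ≤ K →
    x * Real.log x ^ B ≤ (A : ℝ) * D →
    (∀ k ∈ Icc 1 K, |((R.eval (k : ℤ) : ℤ) : ℝ)| ≤ (K : ℝ) ^ j / Real.log x ^ B) →
    ∑ a ∈ Ioc a0 (a0 + A), ∑ d ∈ Ioc D (2 * D),
      ‖∑ k ∈ Icc 1 K, (if 1 ≤ (FF R j σ a d).eval (k : ℤ) then
        g ((FF R j σ a d).eval (k : ℤ)).toNat else 0)‖ ^ 2 ≤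
      A * D * (K : ℝ) ^ 2 / Real.log x ^ U := by
  obtain ⟨E1, E3, B, x1, -, hcore⟩ := core j hj ε hε E0 (U + 2) (U + E0 + 1) 0
  obtain ⟨x2, hF2⟩ := hF E1 E3
  have hev : ∀ᶠ x : ℕ in atTop, x1 ≤ x ∧ x2 ≤ x ∧ 3 ≤ x ∧ 8 ≤ Real.log x ∧
      Real.log x ^ (U + 2) ≤ (x : ℝ) ^ ε := by
    filter_upwards [eventually_ge_atTop x1, eventually_ge_atTop x2, eventually_ge_atTop 3,
      evt_log_ge 8, evt_log_pow (U + 2) ε hε] with x h1 h2 h3 h4 h5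
    exact ⟨h1, h2, h3, h4, h5⟩
  obtain ⟨x0, hx0⟩ := eventually_atTop.mp hev
  refine ⟨B, x0, fun x hx K D A a0 R σ hbox hxDK hxK hAD hR => ?_⟩
  obtain ⟨hx1, hx2, hx3, hL, hLε⟩ := hx0 x hx
  set L := Real.log x with hLdef
  have hL0 : 0 < L := by linarith
  have hL1 : 1 ≤ L := by linarith
  have hLp0 : ∀ n : ℕ, 0 < L ^ n := fun n => by positivity
  have hLp : ∀ n : ℕ, 1 ≤ L ^ n := fun n => one_le_pow₀ hL1
  have hxr : (3:ℝ) ≤ x := by exact_mod_cast hx3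
  have hx0' : (0:ℝ) < x := by linarith
  have hσ := box_sigma hbox
  have haA := box_haA hbox
  have hDK := box_DK hbox
  -- `K1`
  set K1 := ⌊(K:ℝ) / L ^ (U + 1)⌋₊ with hK1
  have hK1le : (K1:ℝ) ≤ K / L ^ (U + 1) := Nat.floor_le (by positivity)
  have hK1K : K1 ≤ K := by
    have : (K1:ℝ) ≤ K := hK1le.trans (div_le_self (by positivity) (hLp _))
    exact_mod_cast this
  have hKK1 : (K:ℝ) ≤ K1 * L ^ (U + 2) := by
    have h1 : (K:ℝ) / L ^ (U + 1) < K1 + 1 := Nat.lt_floor_add_one _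
    have h2 : L ≤ (K:ℝ) / L ^ (U + 1) := by
      rw [le_div_iff₀ (hLp0 _)]
      calc L * L ^ (U + 1) = L ^ (U + 2) := by ring
        _ ≤ _ := hLε.trans hxK
    have h3 : (K:ℝ) / L ^ (U + 1) ≤ K1 * L := by nlinarith
    calc (K:ℝ) = (K / L ^ (U + 1)) * L ^ (U + 1) := by field_simp
      _ ≤ (K1 * L) * L ^ (U + 1) := by gcongr
      _ = _ := by ring
  set f : ℕ → ℂ := fun n => if n ≤ x then g n else 0 with hf
  have hfx : ∀ n, x < n → f n = 0 := by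
    intro n hn
    rw [hf]
    simp only []
    rw [if_neg (by omega)]
  have hfe : ∀ n ∈ Icc 1 x, f n = g n := by
    intro n hn
    rw [mem_Icc] at hn
    rw [hf]
    simp only []
    rw [if_pos hn.2]
  have hfour : FourierHyp f x E1 E3 := by
    intro q hq hqL b _ β hβ
    rw [sum_congr rfl (fun n hn => by rw [hfe n hn])]
    exact hF2 x hx2 q hq hqL b β hβ
  have hfsq : ∑ n ∈ Icc 1 x, ‖f n‖ ^ 2 ≤ x * L ^ 2 := by
    calc ∑ n ∈ Icc 1 x, ‖f n‖ ^ 2 ≤ ∑ n ∈ Icc 1 x, (1:ℝ) := by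
          refine sum_le_sum fun n hn => ?_
          rw [hfe n hn]
          exact pow_le_one₀ (norm_nonneg _) (hg n)
      _ = x := by simp
      _ = x * 1 := (mul_one _).symm
      _ ≤ x * L ^ 2 := by gcongr; exact hLp 2
  have hmain := hcore x hx1 f hfx hfour hfsq D K K1 A a0 R σ hDK hxDK hxK hK1K hKK1 hAD haA
    (fun k hk => hR k (by rw [mem_Ioc] at hk; rw [mem_Icc]; omega)) hσ
  -- facts on D, K
  have hA0 : (0:ℝ) < A := by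
    have h1 : 0 < (A:ℝ) * D := lt_of_lt_of_le (by positivity) hAD
    by_contra hneg
    push Not at hneg
    have : (0:ℝ) ≤ D := Nat.cast_nonneg _
    nlinarith
  have hAx : (A:ℝ) ≤ x := by exact_mod_cast (by omega : A ≤ x)
  have hLBD : L ^ B ≤ D := by
    have h1 : (x:ℝ) * L ^ B ≤ x * D := hAD.trans (by gcongr)
    exact le_of_mul_le_mul_left h1 hx0'
  have hD1 : (1:ℝ) ≤ D := (hLp B).trans hLBD
  have hD0 : (0:ℝ) < D := by linarith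
  have hKpos : (0:ℝ) < K := lt_of_lt_of_le (lt_of_lt_of_le (hLp0 _) hLε) hxK
  have hKj : (0:ℝ) < (K:ℝ) ^ j := by positivity
  have hub : ∀ a ∈ Ioc a0 (a0 + A), ∀ d ∈ Ioc D (2 * D), ∀ k ∈ Icc 1 K,
      (FF R j σ a d).eval (k : ℤ) ≤ x := by
    intro a ha d hd k hk
    rw [mem_Ioc] at ha hd
    rw [mem_Icc] at hk
    rw [FF_eval]
    have hRk : |R.eval (k : ℤ)| ≤ ((K ^ j : ℕ) : ℤ) := by
      have h1 := hR k (mem_Icc.mpr hk)
      have h2 : (K : ℝ) ^ j / L ^ B ≤ ((K ^ j : ℕ) : ℝ) := by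
        push_cast
        exact div_le_self hKj.le (hLp B)
      exact_mod_cast h1.trans h2
    have hRk' := abs_le.mp hRk
    have h1 : k ^ j ≤ K ^ j := Nat.pow_le_pow_left hk.2 j
    have h2 : d * k ^ j ≤ 2 * D * K ^ j := Nat.mul_le_mul hd.2 h1
    have h2' : ((d : ℤ) * (k : ℤ) ^ j) ≤ 2 * D * ((K ^ j : ℕ) : ℤ) := by exact_mod_cast h2
    have h0 : (0:ℤ) ≤ (d : ℤ) * (k : ℤ) ^ j := by positivity
    rcases hbox with ⟨rfl, h3⟩ | ⟨rfl, h3, h4⟩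
    · have h3' : (a0 : ℤ) + A + 2 * D * ((K ^ j : ℕ) : ℤ) + ((K ^ j : ℕ) : ℤ) ≤ x := by
        exact_mod_cast h3
      have ha1 : (a : ℤ) ≤ a0 + A := by exact_mod_cast ha.2
      have : (a : ℤ) + R.eval (k : ℤ) + 1 * d * (k : ℤ) ^ j =
          a + R.eval (k : ℤ) + d * (k : ℤ) ^ j := by ring
      rw [this]
      linarith [hRk'.1, hRk'.2]
    · have h4' : (a0 : ℤ) + A + ((K ^ j : ℕ) : ℤ) ≤ x := by exact_mod_cast h4
      have ha1 : (a : ℤ) ≤ a0 + A := by exact_mod_cast ha.2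
      have : (a : ℤ) + R.eval (k : ℤ) + -1 * d * (k : ℤ) ^ j =
          a + R.eval (k : ℤ) - d * (k : ℤ) ^ j := by ring
      rw [this]
      linarith [hRk'.1, hRk'.2]
  have hpt : ∀ a ∈ Ioc a0 (a0 + A), ∀ d ∈ Ioc D (2 * D),
      ‖∑ k ∈ Icc 1 K, (if 1 ≤ (FF R j σ a d).eval (k : ℤ) then
        g ((FF R j σ a d).eval (k : ℤ)).toNat else 0)‖ ^ 2 ≤
      2 * (K1 : ℝ) ^ 2 + 2 * ‖∑ k ∈ Ioc K1 K, fz f ((FF R j σ a d).eval (k : ℤ))‖ ^ 2 := by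
    intro a ha d hd
    have hsplit : ∑ k ∈ Icc 1 K, (if 1 ≤ (FF R j σ a d).eval (k : ℤ) then
        g ((FF R j σ a d).eval (k : ℤ)).toNat else 0) =
        ∑ k ∈ Icc 1 K1, (if 1 ≤ (FF R j σ a d).eval (k : ℤ) then
        g ((FF R j σ a d).eval (k : ℤ)).toNat else 0) +
        ∑ k ∈ Ioc K1 K, fz f ((FF R j σ a d).eval (k : ℤ)) := by
      have hU : Icc 1 K = Icc 1 K1 ∪ Ioc K1 K := by
        ext k; simp only [mem_union, mem_Icc, mem_Ioc]; omega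
      rw [hU, sum_union]
      · congr 1
        refine sum_congr rfl fun k hk => ?_
        unfold fz
        rw [mem_Ioc] at hk
        have h1 := hub a ha d hd k (by rw [mem_Icc]; omega)
        by_cases h2 : 1 ≤ (FF R j σ a d).eval (k : ℤ)
        · rw [if_pos h2, if_pos h2, hf]
          simp only []
          rw [if_pos (by omega)]
        · rw [if_neg h2, if_neg h2]
      · rw [disjoint_left]
        intro k hk hk2
        rw [mem_Icc] at hk; rw [mem_Ioc] at hk2; omega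
    rw [hsplit]
    refine (norm_add_sq_le _ _).trans ?_
    have h1 : ‖∑ k ∈ Icc 1 K1, (if 1 ≤ (FF R j σ a d).eval (k : ℤ) then
        g ((FF R j σ a d).eval (k : ℤ)).toNat else 0)‖ ≤ K1 := by
      refine (norm_sum_le _ _).trans ?_
      calc _ ≤ ∑ k ∈ Icc 1 K1, (1:ℝ) := by
            refine sum_le_sum fun k _ => ?_
            split_ifs
            · exact hg _
            · simp
        _ = K1 := by simp
    have h2 := pow_le_pow_left₀ (norm_nonneg _) h1 2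
    linarith
  have hKsq : (K1:ℝ) ^ 2 ≤ K ^ 2 / L ^ (U + 1) := by
    calc (K1:ℝ) ^ 2 ≤ (K / L ^ (U + 1)) ^ 2 := by gcongr
      _ = (K ^ 2 / L ^ (U + 1)) / L ^ (U + 1) := by field_simp
      _ ≤ K ^ 2 / L ^ (U + 1) := div_le_self (by positivity) (hLp _)
  calc ∑ a ∈ Ioc a0 (a0 + A), ∑ d ∈ Ioc D (2 * D),
      ‖∑ k ∈ Icc 1 K, (if 1 ≤ (FF R j σ a d).eval (k : ℤ) then
        g ((FF R j σ a d).eval (k : ℤ)).toNat else 0)‖ ^ 2
      ≤ ∑ a ∈ Ioc a0 (a0 + A), ∑ d ∈ Ioc D (2 * D), (2 * (K1 : ℝ) ^ 2 +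
        2 * ‖∑ k ∈ Ioc K1 K, fz f ((FF R j σ a d).eval (k : ℤ))‖ ^ 2) :=
        sum_le_sum fun a ha => sum_le_sum fun d hd => hpt a ha d hd
    _ = A * (D * (2 * (K1 : ℝ) ^ 2)) + 2 * ∑ a ∈ Ioc a0 (a0 + A), ∑ d ∈ Ioc D (2 * D),
        ‖∑ k ∈ Ioc K1 K, fz f ((FF R j σ a d).eval (k : ℤ))‖ ^ 2 := by
        simp only [sum_add_distrib, mul_sum]
        rw [sum_const, sum_const, Nat.card_Ioc, Nat.card_Ioc, nsmul_eq_mul, nsmul_eq_mul,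
          show a0 + A - a0 = A by omega, show 2 * D - D = D by omega]
    _ ≤ A * (D * (2 * (K ^ 2 / L ^ (U + 1)))) +
        2 * (A * x * ((K : ℝ) ^ 2 / (K : ℝ) ^ j) / L ^ (U + E0 + 1)) := by gcongr
    _ ≤ A * (D * (2 * (K ^ 2 / L ^ (U + 1)))) +
        2 * (A * (D * (K : ℝ) ^ j * L ^ E0) * ((K : ℝ) ^ 2 / (K : ℝ) ^ j) / L ^ (U + E0 + 1)) := by
        gcongr
    _ = (A * D * (K : ℝ) ^ 2 / L ^ U) * (4 / L) := by
        rw [show U + E0 + 1 = U + 1 + E0 by ring, pow_add L (U + 1), pow_succ]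
        field_simp
        ring
    _ ≤ (A * D * (K : ℝ) ^ 2 / L ^ U) * 1 := by
        apply mul_le_mul_of_nonneg_left _ (by positivity)
        rw [div_le_one hL0]; linarith
    _ = _ := mul_one _

end Pool.Agent.H300R2.BH
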