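import Pool.Agent.H43.G.R_seed8.H300R2.BH.MajSM2
import Pool.Agent.H43.G.R_seed8.H747R2.BH_MinorP
import Pool.Agent.H43.G.R_seed8.H724R2.BH_Count

/-!
The second moment over the polynomials `a + R(k) + σ d k^j`.
-/

namespace Pool.Agent.H300R2.BH

open Finset Polynomial Filter
open Pool.Agent.H469R2.NK (e norm_e e_add conj_e e_zero)
open Pool.Agent.H442R2.EHI (sum_e_range e_add_int Maj maj_rep Pairs card_pairs poly twist nint
  norm_add_sq_le evt_log_pow evt_log_ge)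
open Pool.Agent.H747R2.BH (minorP)
open Pool.Agent.H724R2.BH (count_inv)

theorem core (j : ℕ) (hj : 1 ≤ j) (ε : ℝ) (hε : 0 < ε) (E0 E2 U E1' : ℕ) :
    ∃ E1 E3 B x0 : ℕ, E1' ≤ E1 ∧ ∀ x : ℕ, x0 ≤ x → ∀ f : ℕ → ℂ, (∀ n, x < n → f n = 0) →
    FourierHyp f x E1 E3 → ∑ n ∈ Icc 1 x, ‖f n‖ ^ 2 ≤ x * Real.log x ^ 2 →
    ∀ (D K K1 A a0 : ℕ) (R : ℤ[X]) (σ : ℤ), D * K ^ j ≤ x →
    (x : ℝ) ≤ D * (K : ℝ) ^ j * Real.log x ^ E0 → (x : ℝ) ^ ε ≤ K → K1 ≤ K →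
    (K : ℝ) ≤ K1 * Real.log x ^ E2 → x * Real.log x ^ B ≤ (A : ℝ) * D → a0 + A ≤ x →
    (∀ k ∈ Ioc K1 K, |((R.eval (k : ℤ) : ℤ) : ℝ)| ≤ (K : ℝ) ^ j / Real.log x ^ B) →
    (σ = 1 ∨ σ = -1) →
    ∑ a ∈ Ioc a0 (a0 + A), ∑ d ∈ Ioc D (2 * D),
      ‖∑ k ∈ Ioc K1 K, fz f ((FF R j σ a d).eval (k : ℤ))‖ ^ 2 ≤
      A * x * ((K : ℝ) ^ 2 / (K : ℝ) ^ j) / Real.log x ^ U := by
  classical
  obtain ⟨E, L0, hcount⟩ := count_inv j hj (U + j * E2 + 4) E2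
  obtain ⟨E3, x1, hmaj⟩ := major_smP j hj ε hε E0 (max E E1') E2 E (6 * (max E E1') + U + 1)
  set E1 := max E E1' with hE1
  set B := 3 * E + j * E2 + (6 * E1 + U + 1) + 5 with hB
  have hEE1 : E ≤ E1 := le_max_left _ _
  have hev : ∀ᶠ x : ℕ in atTop, x1 ≤ x ∧ 3 ≤ x ∧ 400 ≤ Real.log x ∧ L0 ≤ Real.log x ∧
      (1:ℝ) ≤ (x : ℝ) ^ ε := by
    filter_upwards [eventually_ge_atTop x1, eventually_ge_atTop 3,
      evt_log_ge 400, evt_log_ge L0, evt_log_pow 0 ε hε] with x h1 h3 h4 h5 h6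
    exact ⟨h1, h3, h4, h5, by simpa using h6⟩
  obtain ⟨x0, hx0⟩ := eventually_atTop.mp hev
  refine ⟨E1, E3, B, x0, le_max_right _ _, fun x hx f hf hfour hsq D K K1 A a0 R σ hDK hxDK hxK
    hK1 hKK1 hAD haA hR hσ => ?_⟩
  obtain ⟨hx1, hx3, hL, hLL0, hxε⟩ := hx0 x hx
  set L := Real.log x with hLdef
  have hL0 : 0 < L := by linarith
  have hL1 : 1 ≤ L := by linarith
  have hLp0 : ∀ n : ℕ, 0 < L ^ n := fun n => by positivity
  have hLp : ∀ n : ℕ, 1 ≤ L ^ n := fun n => one_le_pow₀ hL1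
  have hxr : (3:ℝ) ≤ x := by exact_mod_cast hx3
  have hx0' : (0:ℝ) < x := by linarith
  have hK1r : (1:ℝ) ≤ K := hxε.trans hxK
  have hK1n : 1 ≤ K := by exact_mod_cast hK1r
  have hK1pos : 1 ≤ K1 := by
    rcases Nat.eq_zero_or_pos K1 with h | h
    · rw [h] at hKK1
      simp at hKK1
      exfalso
      rw [hKK1] at hK1n
      omega
    · exact h
  have hA0 : (0:ℝ) < A := by
    have h1 : 0 < (A:ℝ) * D := lt_of_lt_of_le (by positivity) hAD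
    by_contra hneg
    push Not at hneg
    have : (0:ℝ) ≤ D := Nat.cast_nonneg _
    nlinarith
  have hD0 : (0:ℝ) < D := by
    have h1 : 0 < (A:ℝ) * D := lt_of_lt_of_le (by positivity) hAD
    by_contra hneg
    push Not at hneg
    have : (0:ℝ) ≤ A := Nat.cast_nonneg _
    nlinarith
  have hAx : A ≤ x := by omega
  have hAxr : (A:ℝ) ≤ x := by exact_mod_cast hAx
  have hLBD : L ^ B ≤ D := by
    have h1 : (x:ℝ) * L ^ B ≤ x * D := hAD.trans (by gcongr)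
    exact le_of_mul_le_mul_left h1 hx0'
  set G : ℕ := K ^ j with hG
  set G1 : ℕ := K1 ^ j with hG1
  have hGr : (G : ℝ) = (K : ℝ) ^ j := by rw [hG]; push_cast; ring
  have hG1r : (G1 : ℝ) = (K1 : ℝ) ^ j := by rw [hG1]; push_cast; ring
  have hG1pos : 1 ≤ G1 := Nat.one_le_pow _ _ hK1pos
  have hG1G : G1 ≤ G := Nat.pow_le_pow_left hK1 j
  have hGpos : (0:ℝ) < G := by rw [hGr]; positivity
  have hG1p : (0:ℝ) < G1 := by exact_mod_cast hG1pos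
  have hGG1 : (G : ℝ) ≤ G1 * L ^ (j * E2) := by
    rw [hGr, hG1r]
    calc (K:ℝ) ^ j ≤ (K1 * L ^ E2) ^ j := by gcongr
      _ = K1 ^ j * L ^ (j * E2) := by rw [mul_pow, ← pow_mul, mul_comm E2 j]
  have hDK' : (D:ℝ) * G ≤ x := by exact_mod_cast hDK
  have hGA : (G:ℝ) * L ^ B ≤ A := by
    have h1 : (D:ℝ) * (G * L ^ B) ≤ D * A := by
      calc (D:ℝ) * (G * L ^ B) = (D * G) * L ^ B := by ring
        _ ≤ x * L ^ B := by gcongr
        _ ≤ A * D := hAD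
        _ = D * A := by ring
    exact le_of_mul_le_mul_left h1 hD0
  have hLB4 : (4:ℝ) ≤ L ^ B := by
    calc (4:ℝ) ≤ L := by linarith
      _ = L ^ 1 := (pow_one L).symm
      _ ≤ L ^ B := pow_le_pow_right₀ hL1 (by omega)
  have h2GA : 2 * G ≤ A := by
    have : (2:ℝ) * G ≤ A := by nlinarith
    exact_mod_cast this
  have hD4 : 4 ≤ D := by
    have : (4:ℝ) ≤ D := hLB4.trans hLBD
    exact_mod_cast this
  -- `Q`, `δ`, `Δ`
  set Q := ⌊L ^ E1⌋₊ with hQ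
  have hQle : (Q:ℝ) ≤ L ^ E1 := Nat.floor_le (by positivity)
  have hQ1 : 1 ≤ Q := Nat.le_floor (by simpa using hLp E1)
  set Δ : ℝ := 1 / (2 * (D : ℝ)) + (G : ℝ) / (2 * (A : ℝ)) with hΔdef
  have hΔ0 : 0 ≤ Δ := by positivity
  have hLB0 : (0:ℝ) < L ^ B := hLp0 B
  have hΔle : Δ ≤ 1 / L ^ B := by
    have h1 : 1 / (2 * (D:ℝ)) ≤ 1 / (2 * L ^ B) := by
      apply one_div_le_one_div_of_le (by positivity)
      linarith
    have h2 : (G : ℝ) / (2 * (A : ℝ)) ≤ 1 / (2 * L ^ B) := by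
      rw [div_le_div_iff₀ (by positivity) (by positivity)]
      nlinarith
    calc Δ ≤ 1 / (2 * L ^ B) + 1 / (2 * L ^ B) := by rw [hΔdef]; linarith
      _ = 1 / L ^ B := by field_simp; norm_num
  have hΔE : Δ * L ^ E ≤ 1 := by
    calc Δ * L ^ E ≤ 1 / L ^ B * L ^ B := by
          gcongr
          omega
      _ = 1 := by field_simp
  set δ : ℝ := L ^ E / (K:ℝ) ^ j with hδ
  have hδ0 : 0 ≤ δ := by positivity
  have hδK : δ * (K:ℝ) ^ j ≤ L ^ E := by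
    rw [hδ, div_mul_cancel₀ _ (by positivity)]
  -- decomposition
  set N := 16 * x + 1 with hN
  have hNr : (0:ℝ) < N := by positivity
  set S := Classical.choose (major_decomp f x Q N (by omega) δ) with hS
  obtain ⟨hS1, -, -⟩ := Classical.choose_spec (major_decomp f x Q N (by omega) δ)
  rw [← hS] at hS1
  have hGx : (G:ℝ) ≤ x := by
    have : (1:ℝ) ≤ D := by linarith
    nlinarith
  have hRx : ∀ k ∈ Ioc K1 K, |R.eval (k : ℤ)| ≤ (x : ℤ) := by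
    intro k hk
    have h1 := hR k hk
    have h2 : (K : ℝ) ^ j / L ^ B ≤ x := by
      rw [← hGr]
      exact (div_le_self hGpos.le (hLp B)).trans hGx
    have h3 := h1.trans h2
    exact_mod_cast h3
  have hdec : ∀ a ∈ Ioc a0 (a0 + A), ∀ d ∈ Ioc D (2 * D), ∀ k ∈ Ioc K1 K,
      fz f ((FF R j σ a d).eval (k : ℤ)) =
      (∑ h ∈ (range N).filter (fun h : ℕ => ¬ Maj Q δ ((h : ℝ) / (N : ℝ))), chf f x N h *
        e (-((((FF R j σ a d).eval (k : ℤ) : ℤ) : ℝ) * h / (N : ℝ)))) +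
      ∑ p ∈ Pairs Q, ∑ h ∈ S p, chf f x N h *
        e (-((((FF R j σ a d).eval (k : ℤ) : ℤ) : ℝ) * h / (N : ℝ))) := by
    intro a ha d hd k hk
    have hRk := abs_le.mp (hRx k hk)
    rw [mem_Ioc] at ha hd hk
    have hdk : (d:ℤ) * (k:ℤ) ^ j ≤ 2 * x := by
      have h1 : k ^ j ≤ K ^ j := Nat.pow_le_pow_left hk.2 j
      have h2 : d * k ^ j ≤ 2 * x := by
        calc d * k ^ j ≤ (2 * D) * K ^ j := Nat.mul_le_mul hd.2 h1
          _ = 2 * (D * K ^ j) := by ring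
          _ ≤ 2 * x := Nat.mul_le_mul_left 2 hDK
      exact_mod_cast h2
    have hdk0 : (0:ℤ) ≤ (d:ℤ) * (k:ℤ) ^ j := by positivity
    have hax : (a:ℤ) ≤ x := by exact_mod_cast (by omega : a ≤ x)
    have heval := FF_eval R j σ a d k
    have hb : ((x:ℤ) - N < (FF R j σ a d).eval (k : ℤ)) ∧ (FF R j σ a d).eval (k : ℤ) ≤ N := by
      rw [heval]
      rcases hσ with rfl | rfl
      · have : (a : ℤ) + R.eval (k : ℤ) + 1 * d * (k : ℤ) ^ j =
            a + R.eval (k : ℤ) + d * (k : ℤ) ^ j := by ring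
        rw [this]; omega
      · have : (a : ℤ) + R.eval (k : ℤ) + -1 * d * (k : ℤ) ^ j =
            a + R.eval (k : ℤ) - d * (k : ℤ) ^ j := by ring
        rw [this]; omega
    rw [← ch_inv f x N hf (by omega) _ hb.1 hb.2]
    rw [← hS1, ← sum_filter_add_sum_filter_not (range N) (fun h : ℕ => Maj Q δ ((h : ℝ) / (N : ℝ)))]
    rw [add_comm]
  -- minor arcs
  set Rc : ℝ := (K : ℝ) ^ 2 / L ^ (U + j * E2 + 4) with hRc
  set c : ℕ → ℂ := fun h => if Maj Q δ ((h : ℝ) / (N : ℝ)) then 0 else chf f x N h with hc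
  have hmin := minorP N D A G G1 (Ioc K1 K) (fun k => k ^ j) (fun k hk => by
      rw [mem_Ioc] at hk
      exact ⟨Nat.pow_le_pow_left hk.1.le j, Nat.pow_le_pow_left hk.2 j⟩) hG1pos hG1G hD4
    (by rw [hN]; nlinarith) (by omega) h2GA a0 σ hσ c
    (fun k h => e (-(((R.eval (k : ℤ) : ℤ) : ℝ) * h / N))) (fun k h => by rw [norm_e]) Rc (by
      intro h _ hch
      by_cases hm : Maj Q δ ((h : ℝ) / (N : ℝ))
      · simp [hc, hm] at hch
      · by_contra hlt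
        push Not at hlt
        obtain ⟨q, hq1, hqE, b, hb⟩ := hcount L hLL0 K K1 hK1n hK1 hKK1 Δ ((h : ℝ) / N) hΔ0 hΔE hlt
        apply hm
        refine ⟨q, ?_, b, hb⟩
        rw [mem_Icc]
        refine ⟨hq1, Nat.le_floor (hqE.trans (pow_le_pow_right₀ hL1 hEE1))⟩)
  have h2 : ∀ (a d k : ℕ), ∑ h ∈ range N, c h * e (-(((R.eval (k : ℤ) : ℤ) : ℝ) * h / N)) *
      e (-(((a : ℝ) + σ * d * ((k ^ j : ℕ) : ℝ)) * h / N)) =
      ∑ h ∈ (range N).filter (fun h : ℕ => ¬ Maj Q δ ((h : ℝ) / (N : ℝ))),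
        chf f x N h * e (-((((FF R j σ a d).eval (k : ℤ) : ℤ) : ℝ) * h / N)) := by
    intro a d k
    rw [sum_filter]
    refine sum_congr rfl fun h _ => ?_
    rw [hc]
    by_cases hm : Maj Q δ ((h : ℝ) / (N : ℝ))
    · simp [hm]
    · simp only [hm, if_false, not_false_eq_true, if_true]
      rw [mul_assoc, ← e_add, FF_eval]
      congr 2
      push_cast
      ring
  simp only [h2] at hmin
  have h3 : ∑ h ∈ range N, ‖c h‖ ^ 2 ≤ ∑ h ∈ range N, ‖chf f x N h‖ ^ 2 := by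
    refine sum_le_sum fun h _ => ?_
    rw [hc]
    by_cases hm : Maj Q δ ((h : ℝ) / (N : ℝ))
    · simp only [hm, if_true]; simp
    · simp only [hm, if_false]; exact le_rfl
  have h4 := ch_parseval f x N (by omega)
  set V : ℝ := (K : ℝ) ^ 2 / (K : ℝ) ^ j with hV
  have hV0 : 0 ≤ V := by positivity
  have hbound1 : 100 * (A:ℝ) * N * (Rc / G1) * ∑ h ∈ range N, ‖c h‖ ^ 2 ≤ A * x * V / (4 * L ^ U) := by
    have hRG : Rc / G1 ≤ V / L ^ (U + 4) := by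
      rw [hRc, hV, ← hGr]
      rw [div_div, div_div]
      apply div_le_div_of_nonneg_left (by positivity) (by positivity)
      calc (G:ℝ) * L ^ (U + 4) ≤ (G1 * L ^ (j * E2)) * L ^ (U + 4) := by gcongr
        _ = L ^ (U + j * E2 + 4) * G1 := by
          rw [show U + j * E2 + 4 = j * E2 + (U + 4) by ring, pow_add]; ring
    have hRc0 : 0 ≤ Rc := by positivity
    calc 100 * (A:ℝ) * N * (Rc / G1) * ∑ h ∈ range N, ‖c h‖ ^ 2
        ≤ 100 * (A:ℝ) * N * (Rc / G1) * ∑ h ∈ range N, ‖chf f x N h‖ ^ 2 := by gcongr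
      _ = 100 * A * (Rc / G1) * (N * ∑ h ∈ range N, ‖chf f x N h‖ ^ 2) := by ring
      _ ≤ 100 * A * (V / L ^ (U + 4)) * (x * L ^ 2) := by
          rw [h4]; gcongr
      _ = (A * x * V / L ^ U) * (100 / L ^ 2) := by
          rw [pow_add]; field_simp
      _ ≤ (A * x * V / L ^ U) * (1 / 4) := by
          apply mul_le_mul_of_nonneg_left _ (by positivity)
          rw [div_le_div_iff₀ (by positivity) (by norm_num)]
          nlinarith
      _ = _ := by field_simp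
  have hmaj' : ∀ a ∈ Ioc a0 (a0 + A), ∑ d ∈ Ioc D (2 * D), ‖∑ k ∈ Ioc K1 K,
      ∑ p ∈ Pairs Q, ∑ h ∈ S p, chf f x N h *
        e (-((((FF R j σ a d).eval (k : ℤ) : ℤ) : ℝ) * h / (N : ℝ)))‖ ^ 2 ≤
      (Q : ℝ) ^ 6 * (x * V / L ^ (6 * E1 + U + 1)) := by
    intro a _
    exact hmaj x hx1 f hfour hsq Q D K K1 δ hQ1 hQle (by omega) hDK hxDK hxK hK1 hKK1 hδ0 hδK R hR
      a σ hσ
  have hbound2 : (A:ℝ) * ((Q : ℝ) ^ 6 * (x * V / L ^ (6 * E1 + U + 1))) ≤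
      A * x * V / (4 * L ^ U) := by
    have hQ6 : (Q:ℝ) ^ 6 ≤ L ^ (6 * E1) := by
      calc (Q:ℝ) ^ 6 ≤ (L ^ E1) ^ 6 := by gcongr
        _ = L ^ (6 * E1) := by rw [← pow_mul]; congr 1; ring
    calc (A:ℝ) * ((Q : ℝ) ^ 6 * (x * V / L ^ (6 * E1 + U + 1)))
        ≤ A * (L ^ (6 * E1) * (x * V / L ^ (6 * E1 + U + 1))) := by gcongr
      _ = A * x * V / (L ^ U * L) := by
          rw [show 6 * E1 + U + 1 = 6 * E1 + (U + 1) by ring, pow_add L (6 * E1), pow_succ]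
          field_simp
      _ ≤ A * x * V / (4 * L ^ U) := by
          rw [div_le_div_iff₀ (by positivity) (by positivity)]
          have : 0 ≤ (A:ℝ) * x * V * L ^ U := by positivity
          nlinarith
  calc ∑ a ∈ Ioc a0 (a0 + A), ∑ d ∈ Ioc D (2 * D), ‖∑ k ∈ Ioc K1 K,
        fz f ((FF R j σ a d).eval (k : ℤ))‖ ^ 2
      ≤ ∑ a ∈ Ioc a0 (a0 + A), ∑ d ∈ Ioc D (2 * D), (2 * ‖∑ k ∈ Ioc K1 K,
        ∑ h ∈ (range N).filter (fun h : ℕ => ¬ Maj Q δ ((h : ℝ) / (N : ℝ))), chf f x N h *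
        e (-((((FF R j σ a d).eval (k : ℤ) : ℤ) : ℝ) * h / (N : ℝ)))‖ ^ 2 + 2 * ‖∑ k ∈ Ioc K1 K,
        ∑ p ∈ Pairs Q, ∑ h ∈ S p, chf f x N h *
        e (-((((FF R j σ a d).eval (k : ℤ) : ℤ) : ℝ) * h / (N : ℝ)))‖ ^ 2) := by
        refine sum_le_sum fun a ha => sum_le_sum fun d hd => ?_
        rw [sum_congr rfl (hdec a ha d hd), sum_add_distrib]
        exact norm_add_sq_le _ _
    _ = 2 * ∑ a ∈ Ioc a0 (a0 + A), ∑ d ∈ Ioc D (2 * D), ‖∑ k ∈ Ioc K1 K,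
        ∑ h ∈ (range N).filter (fun h : ℕ => ¬ Maj Q δ ((h : ℝ) / (N : ℝ))), chf f x N h *
        e (-((((FF R j σ a d).eval (k : ℤ) : ℤ) : ℝ) * h / (N : ℝ)))‖ ^ 2 +
        2 * ∑ a ∈ Ioc a0 (a0 + A), ∑ d ∈ Ioc D (2 * D), ‖∑ k ∈ Ioc K1 K,
        ∑ p ∈ Pairs Q, ∑ h ∈ S p, chf f x N h *
        e (-((((FF R j σ a d).eval (k : ℤ) : ℤ) : ℝ) * h / (N : ℝ)))‖ ^ 2 := by
        simp only [sum_add_distrib, mul_sum]
    _ ≤ 2 * (A * x * V / (4 * L ^ U)) + 2 * (A * x * V / (4 * L ^ U)) := by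
        gcongr
        · exact hmin.trans hbound1
        · refine (sum_le_sum hmaj').trans ?_
          rw [sum_const, Nat.card_Ioc, nsmul_eq_mul]
          simpa using hbound2
    _ = A * x * V / L ^ U := by field_simp; ring

end Pool.Agent.H300R2.BH
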