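import Pool.Agent.H43.G.R_seed8.H300R2.BH.DftF
import Pool.Agent.H43.G.R_seed8.H329R2.BH_KSumP
import Pool.Agent.H43.G.R_seed8.H378R2.BH_MajGen
import Pool.Agent.H43.G.R_seed8.H619R2.BH_RPert
import Pool.Agent.H43.G.R_seed8.H442R2.EHI.Core2

/-!
Second moment: major arcs.
-/

namespace Pool.Agent.H300R2.BH

open Finset Polynomial Filter
open Pool.Agent.H469R2.NK (e norm_e e_add conj_e e_zero)
open Pool.Agent.H442R2.EHI (sum_e_range e_add_int Maj maj_rep Pairs card_pairs poly twist nint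
  norm_add_sq_le evt_log_pow evt_log_ge)
open Pool.Agent.H329R2.BH (ksumP)
open Pool.Agent.H378R2.BH (major_gen)
open Pool.Agent.H619R2.BH (rpert)

/-- splitting of the `k`-sum into classes modulo `q` -/
lemma split_classes (q b : ℕ) (hq : 1 ≤ q) (K1 K : ℕ) (H : ℕ → ℤ)
    (hH : ∀ k k' : ℕ, k % q = k' % q → (q : ℤ) ∣ H k - H k') (F : ℕ → ℂ) :
    ‖∑ k ∈ Ioc K1 K, e (-((H k : ℝ) * ((b : ℝ) / q))) * F k‖ ≤
    ∑ r ∈ range q, ‖∑ k ∈ (Ioc K1 K).filter (fun k => k % q = r), F k‖ := by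
  have hmaps : ∀ k ∈ Ioc K1 K, k % q ∈ range q := fun k _ =>
    mem_range.mpr (Nat.mod_lt _ (by omega))
  rw [← sum_fiberwise_of_maps_to hmaps]
  refine (norm_sum_le _ _).trans (sum_le_sum fun r hr => ?_)
  have hq0 : (q : ℝ) ≠ 0 := by positivity
  have : ∀ k ∈ (Ioc K1 K).filter (fun k => k % q = r),
      e (-((H k : ℝ) * ((b : ℝ) / q))) * F k =
      e (-((H r : ℝ) * ((b : ℝ) / q))) * F k := by
    intro k hk
    have hkr := (mem_filter.mp hk).2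
    obtain ⟨t, ht⟩ := hH k r (by
      rw [hkr, Nat.mod_eq_of_lt (mem_range.mp hr)])
    congr 1
    have h2 : (H k : ℝ) = H r + q * (t : ℝ) := by
      have : H k = H r + q * t := by linarith
      exact_mod_cast this
    have : -((H k : ℝ) * ((b : ℝ) / q)) = -((H r : ℝ) * ((b : ℝ) / q)) + ((-(t * b) : ℤ) : ℝ) := by
      rw [h2]; push_cast; field_simp; ring
    rw [this, e_add_int]
  rw [sum_congr rfl this, ← mul_sum, norm_mul, norm_e, one_mul]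

lemma FF_eval (R : ℤ[X]) (j : ℕ) (σ : ℤ) (a d k : ℕ) :
    (FF R j σ a d).eval (k : ℤ) = (a : ℤ) + R.eval (k : ℤ) + σ * d * (k : ℤ) ^ j := by
  unfold FF
  simp [eval_add, eval_mul, eval_pow]

lemma eval_mod (F : ℤ[X]) (q : ℕ) (k k' : ℕ) (h : k % q = k' % q) :
    (q : ℤ) ∣ F.eval (k : ℤ) - F.eval (k' : ℤ) := by
  have h1 : (q : ℤ) ∣ (k : ℤ) - k' := by
    have : (k' : ℕ) ≡ k [MOD q] := h.symm
    exact (Nat.modEq_iff_dvd.mp this)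
  exact h1.trans (sub_dvd_eval_sub _ _ F)

lemma norm_sub_split (u v : ℂ) : ‖u‖ ^ 2 ≤ 2 * ‖v‖ ^ 2 + 2 * ‖u - v‖ ^ 2 := by
  have := norm_add_sq_le v (u - v)
  rwa [add_sub_cancel] at this

/-- one pair `(q, b)` and one class modulo `q` -/
lemma one_class (j : ℕ) (hj : 1 ≤ j) (ε : ℝ) (hε : 0 < ε) (E0 E1 E2 E5 U : ℕ) :
    ∃ E3 x0 : ℕ, ∀ x : ℕ, x0 ≤ x →
    ∀ (D K K1 q r : ℕ) (δ θ : ℝ) (S : Finset ℤ) (c : ℤ → ℂ) (s : ℕ → ℝ),
    1 ≤ D → D * K ^ j ≤ x → (x : ℝ) ≤ D * (K : ℝ) ^ j * Real.log x ^ E0 → (x : ℝ) ^ ε ≤ K →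
    K1 ≤ K → (K : ℝ) ≤ K1 * Real.log x ^ E2 → 1 ≤ q → (q : ℝ) ≤ Real.log x ^ E1 →
    0 ≤ δ → δ * (K : ℝ) ^ j ≤ Real.log x ^ E5 →
    (∀ h ∈ S, |((h : ℝ) + θ) / ((16 * x + 1 : ℕ) : ℝ)| ≤ δ) →
    ((16 * x + 1 : ℕ) : ℝ) * ∑ h ∈ S, ‖c h‖ ^ 2 ≤ x * Real.log x ^ 2 →
    (∀ h ∈ S, |((h : ℝ) + θ) / ((16 * x + 1 : ℕ) : ℝ)| ≤ Real.log x ^ E3 / x →
      ((16 * x + 1 : ℕ) : ℝ) * ‖c h‖ ≤ x / Real.log x ^ (2 * E3)) →
    (∀ k ∈ Ioc K1 K, |s k| ≤ (K : ℝ) ^ j / Real.log x ^ (3 * E5 + j * E2 + U + 5)) →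
    ∑ d ∈ Ioc D (2 * D), ‖∑ k ∈ (Ioc K1 K).filter (fun k => k % q = r),
      poly (16 * x + 1) θ S c ((d : ℝ) * (k : ℝ) ^ j + s k)‖ ^ 2 ≤
      x * ((K : ℝ) ^ 2 / (K : ℝ) ^ j) / Real.log x ^ U := by
  obtain ⟨E4, x1, hks⟩ := ksumP j hj ε hε E1 E2 (2 * (U + 1) + 2 * E5 + 10)
  obtain ⟨E3, x2, hmg⟩ := major_gen E0 (j * E2) E4 E5 (U + 1)
  have hev : ∀ᶠ x : ℕ in atTop, x1 ≤ x ∧ x2 ≤ x ∧ 3 ≤ x ∧ 2560 ≤ Real.log x ∧
      Real.log x ^ E5 ≤ (x : ℝ) ^ ε := by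
    filter_upwards [eventually_ge_atTop x1, eventually_ge_atTop x2, eventually_ge_atTop 3,
      evt_log_ge 2560, evt_log_pow E5 ε hε] with x h1 h2 h3 h4 h5
    exact ⟨h1, h2, h3, h4, h5⟩
  obtain ⟨x0, hx0⟩ := eventually_atTop.mp hev
  refine ⟨E3, x0, fun x hx D K K1 q r δ θ S c s hD hDK hxDK hxK hK1 hKK1 hq hqL hδ0 hδK hδ hV
    hsm hs => ?_⟩
  obtain ⟨hx1, hx2, hx3, hL, hLε⟩ := hx0 x hx
  set L := Real.log x with hLdef
  have hL0 : 0 < L := by linarith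
  have hL1 : 1 ≤ L := by linarith
  have hxr : (3:ℝ) ≤ x := by exact_mod_cast hx3
  have hx0' : (0:ℝ) < x := by linarith
  have hKε1 : (1:ℝ) ≤ (x:ℝ) ^ ε := (one_le_pow₀ hL1).trans hLε
  have hK1r : (1:ℝ) ≤ K := hKε1.trans hxK
  have hKpos : (0:ℝ) < K := by linarith
  have hK1n : 1 ≤ K := by exact_mod_cast hK1r
  have hLp0 : ∀ n : ℕ, 0 < L ^ n := fun n => by positivity
  have hLp : ∀ n : ℕ, 1 ≤ L ^ n := fun n => one_le_pow₀ hL1
  have hK1pos : 1 ≤ K1 := by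
    rcases Nat.eq_zero_or_pos K1 with h | h
    · rw [h] at hKK1
      simp at hKK1
      exfalso
      rw [hKK1] at hK1n
      omega
    · exact h
  set G : ℕ := K ^ j with hG
  set G1 : ℕ := K1 ^ j with hG1
  have hGr : (G : ℝ) = (K : ℝ) ^ j := by rw [hG]; push_cast; ring
  have hG1r : (G1 : ℝ) = (K1 : ℝ) ^ j := by rw [hG1]; push_cast; ring
  have hG1pos : 1 ≤ G1 := Nat.one_le_pow _ _ hK1pos
  have hG1G : G1 ≤ G := Nat.pow_le_pow_left hK1 j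
  have hKx : K ≤ x := by
    calc K = K ^ 1 := (pow_one K).symm
      _ ≤ K ^ j := Nat.pow_le_pow_right hK1n hj
      _ ≤ D * K ^ j := Nat.le_mul_of_pos_left _ hD
      _ ≤ x := hDK
  have hKG : (K:ℝ) ≤ (K:ℝ) ^ j := le_self_pow₀ hK1r (by omega)
  have hGpos : (0:ℝ) < G := by rw [hGr]; positivity
  have hG1p : (0:ℝ) < G1 := by exact_mod_cast hG1pos
  have hGG1 : (G : ℝ) ≤ G1 * L ^ (j * E2) := by
    rw [hGr, hG1r]
    calc (K:ℝ) ^ j ≤ (K1 * L ^ E2) ^ j := by gcongr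
      _ = K1 ^ j * L ^ (j * E2) := by rw [mul_pow, ← pow_mul, mul_comm E2 j]
  have hδ1 : δ ≤ 1 := by
    have h1 : δ * (K:ℝ) ^ j ≤ 1 * (K:ℝ) ^ j := by
      rw [one_mul]
      exact hδK.trans (hLε.trans (hxK.trans hKG))
    exact le_of_mul_le_mul_right h1 (by positivity)
  have hδG : δ * G ≤ L ^ E5 := by rw [hGr]; exact hδK
  set T0 : Finset ℕ := (Ioc K1 K).filter (fun k => k % q = r) with hT0
  have hT0mem : ∀ k ∈ T0, K1 < k ∧ k ≤ K := by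
    intro k hk
    rw [hT0, mem_filter, mem_Ioc] at hk
    exact hk.1
  have hT0card : T0.card ≤ K := by
    have h1 := card_le_card (filter_subset (fun k => k % q = r) (Ioc K1 K))
    rw [Nat.card_Ioc] at h1
    rw [hT0]; omega
  have hinj : Set.InjOn (fun k : ℕ => k ^ j) (T0 : Set ℕ) := by
    intro a _ b _ hab
    exact Nat.pow_left_injective (by omega : j ≠ 0) hab
  set T : Finset ℕ := T0.image (fun k => k ^ j) with hT
  have hTsub : T ⊆ Ioc G1 G := by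
    intro m hm
    rw [hT, mem_image] at hm
    obtain ⟨k, hk, rfl⟩ := hm
    obtain ⟨h1, h2⟩ := hT0mem k hk
    rw [mem_Ioc]
    exact ⟨Nat.pow_lt_pow_left h1 (by omega), Nat.pow_le_pow_left h2 j⟩
  have hTcard : T.card ≤ K := card_image_le.trans hT0card
  -- the main term
  have hmain := hmg x hx2 (16 * x + 1) D G G1 K δ θ S c T (by omega) (by omega) hD hDK
    (by rw [hGr]; exact hxDK) hG1pos hG1G hGG1 hδ0 hδ1 hδG hδ hV hsm hTsub hTcard (by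
      intro ξ h1 h2
      have h3 := hks x hx1 K K1 q r hxK hKx hK1 hKK1 hq hqL ξ h1 h2
      rw [hT, sum_image hinj, hGr]
      exact h3)
  -- the perturbation
  set s0 : ℝ := (K : ℝ) ^ j / L ^ (3 * E5 + j * E2 + U + 5) with hs0
  have hs0' : 0 ≤ s0 := by positivity
  have hs0G : s0 ≤ G1 := by
    rw [hs0, div_le_iff₀ (hLp0 _)]
    rw [← hGr]
    refine hGG1.trans ?_
    apply mul_le_mul_of_nonneg_left _ hG1p.le
    exact pow_le_pow_right₀ hL1 (by omega)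
  have hpert := rpert (16 * x + 1) D G G1 K (by omega) T0 (fun k => k ^ j) s s0 δ θ S c
    (x * L ^ 2) hD hG1pos (fun k hk => by
      obtain ⟨h1, h2⟩ := hT0mem k hk
      exact ⟨Nat.pow_le_pow_left h1.le j, Nat.pow_le_pow_left h2 j⟩)
    (fun k hk => hs k (mem_of_mem_filter k hk)) (by
      calc s0 ≤ G1 := hs0G
        _ = 1 * G1 := (one_mul _).symm
        _ ≤ D * G1 := by
          apply mul_le_mul_of_nonneg_right _ hG1p.le
          exact_mod_cast hD) (by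
      have h1 : (D:ℝ) * G ≤ x := by exact_mod_cast hDK
      have h2 : s0 ≤ x := by
        refine hs0G.trans ?_
        have : (G1:ℝ) ≤ G := by exact_mod_cast hG1G
        have h3 : (1:ℝ) * G ≤ D * G := by
          apply mul_le_mul_of_nonneg_right _ hGpos.le
          exact_mod_cast hD
        linarith
      push_cast
      nlinarith) hδ0 hδ hV hT0card
  have hpertb : (K : ℝ) ^ 2 * s0 ^ 2 * (40 * δ ^ 2 / G1 + 600 * δ ^ 3) * (x * L ^ 2) ≤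
      x * ((K : ℝ) ^ 2 / (K : ℝ) ^ j) / L ^ (U + 2) := by
    have hδle : δ ≤ L ^ E5 / G := by rw [le_div_iff₀ hGpos]; exact hδG
    have h1G : 1 / (G1:ℝ) ≤ L ^ (j * E2) / G := by
      rw [div_le_div_iff₀ hG1p hGpos, one_mul, mul_comm]
      exact hGG1
    have h2 : 40 * δ ^ 2 / G1 + 600 * δ ^ 3 ≤ 640 * L ^ (3 * E5 + j * E2) / (G:ℝ) ^ 3 := by
      have a1 : 40 * δ ^ 2 / G1 ≤ 40 * L ^ (3 * E5 + j * E2) / (G:ℝ) ^ 3 := by
        calc 40 * δ ^ 2 / G1 = 40 * δ ^ 2 * (1 / G1) := by ring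
          _ ≤ 40 * (L ^ E5 / G) ^ 2 * (L ^ (j * E2) / G) := by gcongr
          _ = 40 * L ^ (2 * E5 + j * E2) / (G:ℝ) ^ 3 := by
            rw [pow_add, pow_mul' L 2 E5]; field_simp
          _ ≤ _ := by
            gcongr
            norm_num
      have a2 : 600 * δ ^ 3 ≤ 600 * L ^ (3 * E5 + j * E2) / (G:ℝ) ^ 3 := by
        calc 600 * δ ^ 3 ≤ 600 * (L ^ E5 / G) ^ 3 := by gcongr
          _ = 600 * L ^ (3 * E5) / (G:ℝ) ^ 3 := by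
            rw [pow_mul' L 3 E5]; field_simp
          _ ≤ _ := by
            gcongr
            exact Nat.le_add_right _ _
      calc _ ≤ 40 * L ^ (3 * E5 + j * E2) / (G:ℝ) ^ 3 + 600 * L ^ (3 * E5 + j * E2) / (G:ℝ) ^ 3 :=
            add_le_add a1 a2
        _ = _ := by ring
    have hX := hLp0 (3 * E5 + j * E2)
    have hU := hLp0 (U + 2)
    have hsplit : L ^ (3 * E5 + j * E2 + U + 5) = L ^ (3 * E5 + j * E2) * L ^ (U + 2) * L ^ 3 := by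
      rw [← pow_add, ← pow_add]; congr 1
    calc (K : ℝ) ^ 2 * s0 ^ 2 * (40 * δ ^ 2 / G1 + 600 * δ ^ 3) * (x * L ^ 2)
        ≤ (K : ℝ) ^ 2 * s0 ^ 2 * (640 * L ^ (3 * E5 + j * E2) / (G:ℝ) ^ 3) * (x * L ^ 2) := by
          gcongr
      _ = (x * ((K : ℝ) ^ 2 / (K : ℝ) ^ j) / L ^ (U + 2)) *
          (640 / (L ^ (3 * E5 + j * E2) * L ^ (U + 2) * L ^ 4)) := by
          rw [hs0, hsplit, ← hGr]
          field_simp
      _ ≤ (x * ((K : ℝ) ^ 2 / (K : ℝ) ^ j) / L ^ (U + 2)) * 1 := by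
          apply mul_le_mul_of_nonneg_left _ (by positivity)
          rw [div_le_one (by positivity)]
          have b1 : (640:ℝ) ≤ L ^ 4 := by
            calc (640:ℝ) ≤ L := by linarith
              _ = L ^ 1 := (pow_one L).symm
              _ ≤ L ^ 4 := pow_le_pow_right₀ hL1 (by norm_num)
          have b2 : (1:ℝ) ≤ L ^ (3 * E5 + j * E2) * L ^ (U + 2) := one_le_mul_of_one_le_of_one_le (hLp _) (hLp _)
          nlinarith
      _ = _ := mul_one _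
  -- combination
  have hcomb : ∀ d : ℕ, ‖∑ k ∈ T0, poly (16 * x + 1) θ S c ((d : ℝ) * (k : ℝ) ^ j + s k)‖ ^ 2 ≤
      2 * ‖∑ m ∈ T, poly (16 * x + 1) θ S c ((d : ℝ) * m)‖ ^ 2 +
      2 * ‖∑ k ∈ T0, (poly (16 * x + 1) θ S c ((d : ℝ) * ((k ^ j : ℕ) : ℝ) + s k) -
        poly (16 * x + 1) θ S c ((d : ℝ) * ((k ^ j : ℕ) : ℝ)))‖ ^ 2 := by
    intro d
    have h1 := norm_sub_split (∑ k ∈ T0, poly (16 * x + 1) θ S c ((d : ℝ) * (k : ℝ) ^ j + s k))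
      (∑ k ∈ T0, poly (16 * x + 1) θ S c ((d : ℝ) * ((k ^ j : ℕ) : ℝ)))
    rw [← sum_sub_distrib] at h1
    rw [hT, sum_image hinj]
    convert h1 using 4
    · push_cast; rfl
  refine (sum_le_sum fun d _ => hcomb d).trans ?_
  rw [sum_add_distrib, ← mul_sum, ← mul_sum]
  have hmain' : ∑ d ∈ Ioc D (2 * D), ‖∑ m ∈ T, poly (16 * x + 1) θ S c ((d : ℝ) * m)‖ ^ 2 ≤
      x * ((K : ℝ) ^ 2 / (K : ℝ) ^ j) / L ^ (U + 1) := by
    rw [hGr] at hmain; exact hmain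
  have hpert' := hpert.trans hpertb
  have hY : 0 ≤ x * ((K : ℝ) ^ 2 / (K : ℝ) ^ j) := by positivity
  calc 2 * ∑ d ∈ Ioc D (2 * D), ‖∑ m ∈ T, poly (16 * x + 1) θ S c ((d : ℝ) * m)‖ ^ 2 +
        2 * ∑ d ∈ Ioc D (2 * D), ‖∑ k ∈ T0, (poly (16 * x + 1) θ S c ((d : ℝ) * ((k ^ j : ℕ) : ℝ) + s k) -
        poly (16 * x + 1) θ S c ((d : ℝ) * ((k ^ j : ℕ) : ℝ)))‖ ^ 2
      ≤ 2 * (x * ((K : ℝ) ^ 2 / (K : ℝ) ^ j) / L ^ (U + 1)) +
        2 * (x * ((K : ℝ) ^ 2 / (K : ℝ) ^ j) / L ^ (U + 2)) := by gcongr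
    _ ≤ 2 * (x * ((K : ℝ) ^ 2 / (K : ℝ) ^ j) / L ^ (U + 1)) +
        2 * (x * ((K : ℝ) ^ 2 / (K : ℝ) ^ j) / L ^ (U + 1)) := by
        gcongr
        norm_num
    _ = (4 / L) * (x * ((K : ℝ) ^ 2 / (K : ℝ) ^ j) / L ^ U) := by
        rw [pow_succ]; field_simp; ring
    _ ≤ 1 * (x * ((K : ℝ) ^ 2 / (K : ℝ) ^ j) / L ^ U) := by
        apply mul_le_mul_of_nonneg_right _ (by positivity)
        rw [div_le_one hL0]; linarith
    _ = _ := one_mul _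

end Pool.Agent.H300R2.BH
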